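import Pool.Agent.Helper10.BD.Core3

/-! # Preparations: linear forms, derivatives in a direction -/

set_option autoImplicit false

namespace Pool.Agent.Helper10.BD

open MvPolynomial Pool.Agent.Helper4.HY Pool.Agent.Helper48.HY

universe u v

section lin
variable {k : Type u} [Field k] {n : ℕ}

theorem lin_form {f : MvPolynomial (Fin n) k} (hf : f.IsHomogeneous 1) :
    ∃ c : Fin n → k, (∀ l, pderiv l f = C (c l)) ∧
      ∀ (B : Type v) [CommRing B] [Algebra k B] (y : Fin n → B), aeval y f = ∑ l, c l • y l := by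
  have h0 : ∀ l, pderiv l f = C (coeff 0 (pderiv l f)) := by
    intro l
    have h3 : (pderiv l f).IsHomogeneous 0 := hf.pderiv
    rw [← totalDegree_eq_zero_iff_eq_C]
    exact Nat.le_zero.1 h3.totalDegree_le
  refine ⟨fun l => coeff 0 (pderiv l f), h0, fun B _ _ y => ?_⟩
  have h1 := hf.sum_X_mul_pderiv
  rw [one_smul] at h1
  conv_lhs => rw [← h1]
  rw [map_sum]
  refine Finset.sum_congr rfl fun l _ => ?_
  rw [map_mul, aeval_X, h0, aeval_C]
  change y l * algebraMap k B (coeff 0 (pderiv l f)) = coeff 0 (pderiv l f) • y l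
  rw [Algebra.smul_def, mul_comm]

end lin

section dd
variable {K : Type u} [Field K] {σ : Type} [Fintype σ] {B : Type v} [CommRing B] [Algebra K B] (R w : σ → B)

theorem ddF_add (F G : MvPolynomial σ K) : dd (F + G) R w = dd F R w + dd G R w := by
  rw [dd, dd, dd, ← Finset.sum_add_distrib]
  exact Finset.sum_congr rfl fun i _ => by rw [map_add, map_add, mul_add]

theorem ddF_sub (F G : MvPolynomial σ K) : dd (F - G) R w = dd F R w - dd G R w := by
  rw [dd, dd, dd, ← Finset.sum_sub_distrib]
  exact Finset.sum_congr rfl fun i _ => by rw [map_sub, map_sub, mul_sub]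

theorem ddF_sum {ι : Type*} (s : Finset ι) (F : ι → MvPolynomial σ K) :
    dd (∑ i ∈ s, F i) R w = ∑ i ∈ s, dd (F i) R w := by
  simp only [dd, map_sum, Finset.mul_sum]
  exact Finset.sum_comm

theorem ddF_C_mul (c : K) (F : MvPolynomial σ K) : dd (C c * F) R w = algebraMap K B c * dd F R w := by
  rw [dd, dd, Finset.mul_sum]
  refine Finset.sum_congr rfl fun i _ => ?_
  rw [pderiv_C_mul, map_mul, aeval_C]
  ring

theorem ddF_X [DecidableEq σ] (i : σ) : dd (X i : MvPolynomial σ K) R w = w i := by
  rw [dd, Finset.sum_eq_single i]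
  · rw [pderiv_X_self, map_one, mul_one]
  · intro j _ hj
    rw [pderiv_X_of_ne (Ne.symm hj), map_zero, mul_zero]
  · intro h
    exact absurd (Finset.mem_univ _) h

theorem ddF_pow_X [DecidableEq σ] (i : σ) (m : ℕ) (h : w i = 0) : dd ((X i : MvPolynomial σ K) ^ m) R w = 0 := by
  rw [dd]
  refine Finset.sum_eq_zero fun j _ => ?_
  by_cases hj : j = i
  · rw [hj, h, zero_mul]
  · rw [(pderiv j).leibniz_pow, pderiv_X_of_ne (Ne.symm hj), smul_zero, smul_zero, map_zero, mul_zero]

end dd

end Pool.Agent.Helper10.BD
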