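import Pool.Agent.Helper10.BD.Asm1

/-! # The fibres of the map given by forms with a free linear space -/

set_option autoImplicit false

namespace Pool.Agent.Helper10.BD

open MvPolynomial Pool.Agent.Helper4.HY Pool.Agent.Helper48.HY

universe u v

/-- a free linear space, spanned by the `P m` -/
structure FreeSp {K : Type u} [Field K] {n s b : ℕ} (d : Fin s → ℕ) (U : Fin s → MvPolynomial (Fin n) K)
    (P : Fin b → Fin n → K) (W : GG b s d → Fin n → K) : Prop where
  hom : ∀ j, (U j).IsHomogeneous (d j + 1)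
  van : ∀ j, pol (U j) P = 0
  dual : ∀ β β' : GG b s d, ∑ l, coeff β.2.1 (pol (pderiv l (U β.1)) P) * W β' l = if β = β' then 1 else 0

section
variable {K : Type u} [Field K] {n s b : ℕ} {d : Fin s → ℕ} {U : Fin s → MvPolynomial (Fin n) K}
  {P : Fin b → Fin n → K} {W : GG b s d → Fin n → K}

theorem FreeSp.map {M : Type u} [Field M] [Algebra K M] (h : FreeSp d U P W) :
    FreeSp d (fun j => MvPolynomial.map (algebraMap K M) (U j)) (fun m l => algebraMap K M (P m l))
      (fun β l => algebraMap K M (W β l)) where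
  hom j := (h.hom j).map _
  van j := by rw [pol_map_base, h.van, map_zero]
  dual β β' := by
    have h1 := congrArg (algebraMap K M) (h.dual β β')
    rw [map_sum] at h1
    have h2 : algebraMap K M (if β = β' then 1 else 0) = if β = β' then 1 else 0 := by
      split_ifs
      · rw [map_one]
      · rw [map_zero]
    rw [h2] at h1
    rw [← h1]
    refine Finset.sum_congr rfl fun l _ => ?_
    rw [map_mul, pderiv_map, pol_map_base, coeff_map]

/-- the point in the linear space with parameters -/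
noncomputable def px (P : Fin b → Fin n → K) (l : Fin n) : MvPolynomial (Fin b) K := ∑ m, P m l • X m

theorem coeff_dd (j : Fin s) (w : Fin n → K) (α : Fin b →₀ ℕ) :
    coeff α (dd (U j) (px P) (fun l => C (w l))) = ∑ l, coeff α (pol (pderiv l (U j)) P) * w l := by
  rw [dd, coeff_sum]
  refine Finset.sum_congr rfl fun l _ => ?_
  rw [coeff_C_mul, mul_comm]
  rfl

theorem FreeSp.dd_zero (h : FreeSp d U P W) {j : Fin s} {β : GG b s d} (hj : j ≠ β.1) :
    dd (U j) (px P) (fun l => C (W β l)) = 0 := by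
  ext α
  rw [coeff_dd, coeff_zero]
  by_cases hα : α.degree = d j
  · have h1 := h.dual ⟨j, ⟨α, mem_AA hα⟩⟩ β
    rw [if_neg] at h1
    · exact h1
    · intro h2
      exact hj (congrArg Sigma.fst h2)
  · refine Finset.sum_eq_zero fun l _ => ?_
    have h1 : (pderiv l (U j)).IsHomogeneous (d j) := (h.hom j).pderiv
    rw [(pol_hom h1 P).coeff_eq_zero hα, zero_mul]

theorem FreeSp.dual_vec (h : FreeSp d U P W) : ∃ E c : Fin s → Fin n → K, (∀ i, d i ≠ 0 → E i = 0) ∧
    (∀ j, d j = 0 → ∀ (B : Type u) [CommRing B] [Algebra K B] (y : Fin n → B), aeval y (U j) = ∑ l, c j l • y l) ∧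
    (∀ i j, d i = 0 → d j = 0 → ∑ l, c j l * E i l = if j = i then 1 else 0) := by
  classical
  have h1 : ∀ j, ∃ c : Fin n → K, d j = 0 → (∀ l, pderiv l (U j) = C (c l)) ∧
      ∀ (B : Type u) [CommRing B] [Algebra K B] (y : Fin n → B), aeval y (U j) = ∑ l, c l • y l := by
    intro j
    by_cases hj : d j = 0
    · have h2 := h.hom j
      rw [hj] at h2
      obtain ⟨c, hc⟩ := lin_form.{u, u} h2
      exact ⟨c, fun _ => hc⟩
    · exact ⟨0, fun h => absurd h hj⟩
  choose c hc using h1
  have h0 : ∀ i, d i = 0 → (0 : Fin b →₀ ℕ).degree = d i := fun i hi => by rw [hi]; simp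
  refine ⟨fun i => if hi : d i = 0 then W ⟨i, ⟨0, mem_AA (h0 i hi)⟩⟩ else 0, c, fun i hi => dif_neg hi,
    fun j hj => (hc j hj).2, fun i j hi hj => ?_⟩
  simp only [dif_pos hi]
  have h2 := h.dual ⟨j, ⟨0, mem_AA (h0 j hj)⟩⟩ ⟨i, ⟨0, mem_AA (h0 i hi)⟩⟩
  have h3 : ∀ l, coeff 0 (pol (pderiv l (U j)) P) = c j l := by
    intro l
    rw [(hc j hj).1 l]
    unfold pol
    rw [aeval_C]
    change coeff 0 (C (c j l)) = c j l
    rw [coeff_C, if_pos rfl]
  have h4 : ((⟨j, ⟨0, mem_AA (h0 j hj)⟩⟩ : GG b s d) = ⟨i, ⟨0, mem_AA (h0 i hi)⟩⟩) ↔ j = i := by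
    constructor
    · intro h5
      exact congrArg Sigma.fst h5
    · intro h5
      subst h5
      rfl
  simp only [h3, h4] at h2
  exact h2

end

end Pool.Agent.Helper10.BD
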