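import Pool.Agent.Helper10.BD.Asm2

/-! # The fibres of the map given by forms with a free linear space: the generic point -/

set_option autoImplicit false

namespace Pool.Agent.Helper10.BD

open MvPolynomial Pool.Agent.Helper4.HY Pool.Agent.Helper48.HY

universe u v

section zeta
variable {K : Type u} [Field K] {n s b : ℕ} {d : Fin s → ℕ} (U : Fin s → MvPolynomial (Fin n) K)
  (E : Fin s → Fin n → K) (z : Fin s → K)

/-- the parametrisation of the affine space defined by the linear forms, homogenised -/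
noncomputable def ze (l : Fin n) : MvPolynomial (Fin (n + 1)) K :=
  C (∑ i, E i l * z i) * X 0 + (X l.succ - ∑ i, C (E i l) * aeval (fun m : Fin n =>
    (X m.succ : MvPolynomial (Fin (n + 1)) K)) (U i))

theorem aeval_ze {B : Type v} [CommRing B] [Algebra K B] (y : Fin (n + 1) → B) (l : Fin n) :
    aeval y (ze U E z l) = algebraMap K B (∑ i, E i l * z i) * y 0 +
      (y l.succ - ∑ i, algebraMap K B (E i l) * aeval (fun m : Fin n => y m.succ) (U i)) := by
  rw [ze, map_add, map_mul, aeval_C, aeval_X, map_sub, aeval_X]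
  congr 2
  rw [map_sum]
  refine Finset.sum_congr rfl fun i _ => ?_
  rw [map_mul, aeval_C]
  congr 1
  have := congrFun (congrArg DFunLike.coe (comp_aeval (fun m : Fin n => (X m.succ : MvPolynomial (Fin (n + 1)) K))
    (aeval y : MvPolynomial (Fin (n + 1)) K →ₐ[K] B))) (U i)
  refine this.trans ?_
  congr 2
  funext m
  rw [aeval_X]

theorem ze_hom (hU : ∀ j, (U j).IsHomogeneous (d j + 1)) (hE : ∀ i, d i ≠ 0 → E i = 0) (l : Fin n) :
    (ze U E z l).IsHomogeneous 1 := by
  refine IsHomogeneous.add ?_ (IsHomogeneous.sub (isHomogeneous_X _ _) ?_)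
  · have := (isHomogeneous_C (Fin (n + 1)) (∑ i, E i l * z i)).mul (isHomogeneous_X K (0 : Fin (n + 1)))
    rwa [zero_add] at this
  · refine IsHomogeneous.sum _ _ _ fun i _ => ?_
    by_cases hi : d i = 0
    · have h1 := (hU i).aeval (fun m : Fin n => (X m.succ : MvPolynomial (Fin (n + 1)) K))
        (fun m => isHomogeneous_X _ _)
      rw [hi, zero_add, mul_one] at h1
      have := (isHomogeneous_C (Fin (n + 1)) (E i l)).mul h1
      rwa [zero_add] at this
    · rw [hE i hi, Pi.zero_apply, C_0, zero_mul]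
      exact isHomogeneous_zero _ _ _

theorem dd_ze {B : Type v} [CommRing B] [Algebra K B] (y w : Fin (n + 1) → B) (hw : w 0 = 0) (l : Fin n) :
    dd (ze U E z l) y w = w l.succ - ∑ i, algebraMap K B (E i l) *
      dd (U i) (fun m : Fin n => y m.succ) (fun m => w m.succ) := by
  classical
  rw [ze, ddF_add, ddF_C_mul, ddF_X, hw, mul_zero, zero_add, ddF_sub, ddF_X, ddF_sum]
  congr 2
  funext i
  rw [ddF_C_mul]
  congr 1
  rw [dd_subst]
  congr 1
  · funext m
    rw [aeval_X]
  · funext m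
    rw [ddF_X]

/-- homogenisation -/
theorem homogenise (g : MvPolynomial (Fin n) K) : ∃ (G : MvPolynomial (Fin (n + 1)) K) (δ : ℕ),
    ∀ (B : Type u) [Field B] [Algebra K B] (y : Fin (n + 1) → B), y 0 ≠ 0 →
      aeval y G = y 0 ^ δ * aeval (fun l => (y 0)⁻¹ * aeval y (ze U E z l)) g := by
  induction g using MvPolynomial.induction_on with
  | C c =>
    refine ⟨C c, 0, fun B _ _ y hy => ?_⟩
    rw [aeval_C, aeval_C, pow_zero, one_mul]
  | add p q hp hq =>
    obtain ⟨G₁, δ₁, h₁⟩ := hp
    obtain ⟨G₂, δ₂, h₂⟩ := hq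
    refine ⟨X 0 ^ δ₂ * G₁ + X 0 ^ δ₁ * G₂, δ₁ + δ₂, fun B _ _ y hy => ?_⟩
    rw [map_add, map_mul, map_mul, map_pow, map_pow, aeval_X, h₁ B y hy, h₂ B y hy, map_add]
    ring
  | mul_X p l hp =>
    obtain ⟨G, δ, h⟩ := hp
    refine ⟨G * ze U E z l, δ + 1, fun B _ _ y hy => ?_⟩
    rw [map_mul, h B y hy, map_mul, aeval_X, pow_succ]
    have h1 : y 0 * (y 0)⁻¹ = 1 := mul_inv_cancel₀ hy
    linear_combination (-(y 0 ^ δ * (aeval fun l => (y 0)⁻¹ * (aeval y) (ze U E z l)) p * (aeval y) (ze U E z l))) * h1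

end zeta

/-- The fibre of `U` over the point `z` of `K^s`: all its points in extension fields of `K` are specialisations of a
point over a field of rational functions. -/
theorem fibre {K : Type u} [Field K] [CharZero K] {n s b r : ℕ} {d : Fin s → ℕ} {U : Fin s → MvPolynomial (Fin n) K}
    {P : Fin b → Fin n → K} {W : GG b s d → Fin n → K} (h : FreeSp d U P W) (σ : Fin r → Fin s)
    (hσ : Function.Injective σ) (hσ1 : ∀ i, 1 ≤ d (σ i)) (hσ2 : ∀ j, d j = 0 ∨ ∃ i, σ i = j) (hb : r + 1 ≤ b)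
    (hadm : Adm b (Fin r) (fun i => d (σ i) + 1)) {L₀ : Type u} [Field L₀] [Algebra K L₀] (z : Fin s → K)
    (ξ₀ : Fin n → L₀) (hξ₀ : ∀ j, aeval ξ₀ (U j) = algebraMap K L₀ (z j)) :
    ∃ (m : ℕ) (ρ : Fin n → FractionRing (MvPolynomial (Fin m) K)),
      (∀ j, aeval ρ (U j) = algebraMap K _ (z j)) ∧
      ∀ (L : Type u) [Field L] [Algebra K L] (ξ : Fin n → L), (∀ j, aeval ξ (U j) = algebraMap K L (z j)) →
        ∀ g : MvPolynomial (Fin n) K, aeval ρ g = 0 → aeval ξ g = 0 := by
  classical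
  obtain ⟨E, c, hE0, hc, hdual⟩ := h.dual_vec
  let F : Fin r → MvPolynomial (Fin (n + 1)) K := fun i =>
    aeval (ze U E z) (U (σ i)) - C (z (σ i)) * X 0 ^ (d (σ i) + 1)
  have hF : ∀ i, (F i).IsHomogeneous (d (σ i) + 1) := by
    intro i
    refine IsHomogeneous.sub ?_ ?_
    · have := (h.hom (σ i)).aeval _ (ze_hom U E z h.hom hE0)
      rwa [one_mul] at this
    · have := (isHomogeneous_C (Fin (n + 1)) (z (σ i))).mul ((isHomogeneous_X K (0 : Fin (n + 1))).pow (d (σ i) + 1))
      rwa [zero_add, one_mul] at this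
  -- the free linear space
  let P' : Fin b → Fin (n + 1) → K := fun m => Fin.cons 0 (P m)
  let W' : GG b r (fun i => d (σ i)) → Fin (n + 1) → K := fun β => Fin.cons 0 (W ⟨σ β.1, β.2⟩)
  let PX : Fin (n + 1) → MvPolynomial (Fin b) K := fun l => ∑ m, P' m l • X m
  have hPX0 : PX 0 = 0 := Finset.sum_eq_zero fun m _ => zero_smul _ _
  have hPXs : ∀ l : Fin n, PX l.succ = px P l := fun l => rfl
  have hpxU : ∀ j, aeval (px P) (U j) = 0 := fun j => h.van j
  have hPXz : ∀ l, aeval PX (ze U E z l) = px P l := by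
    intro l
    rw [aeval_ze, hPX0, mul_zero, zero_add, hPXs]
    simp only [hPXs]
    rw [Finset.sum_eq_zero, sub_zero]
    intro i _
    change _ * aeval (px P) (U i) = 0
    rw [hpxU, mul_zero]
  have hsub : ∀ f : MvPolynomial (Fin n) K, aeval PX (aeval (ze U E z) f) = aeval (px P) f := by
    intro f
    have := congrFun (congrArg DFunLike.coe (comp_aeval (ze U E z)
      (aeval PX : MvPolynomial (Fin (n + 1)) K →ₐ[K] MvPolynomial (Fin b) K))) f
    refine this.trans ?_
    rw [funext hPXz]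
  have hp : ∀ i, pol (F i) P' = 0 := by
    intro i
    change aeval PX (F i) = 0
    rw [map_sub, hsub, hpxU, map_mul, map_pow, aeval_X, hPX0, zero_pow (Nat.succ_ne_zero _), mul_zero, sub_zero]
  have hdz : ∀ (β : GG b r (fun i => d (σ i))) l, dd (ze U E z l) PX (fun l => C (W' β l)) = C (W ⟨σ β.1, β.2⟩ l) := by
    intro β l
    rw [dd_ze U E z PX (fun l => C (W' β l)) (by change C (0 : K) = 0; rw [C_0])]
    rw [Finset.sum_eq_zero, sub_zero]
    · rfl
    · intro i _
      by_cases hi : d i = 0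
      · have h1 : i ≠ σ β.1 := by
          rintro rfl
          have := hσ1 β.1
          omega
        have h2 := h.dd_zero (j := i) (β := ⟨σ β.1, β.2⟩) h1
        change _ * dd (U i) (px P) (fun l => C (W ⟨σ β.1, β.2⟩ l)) = 0
        rw [h2, mul_zero]
      · rw [hE0 i hi, Pi.zero_apply, map_zero, zero_mul]
  have hW : ∀ p q : GG b r (fun i => d (σ i)), ∑ l, coeff p.2.1 (pol (pderiv l (F p.1)) P') * W' q l =
      if p = q then 1 else 0 := by
    intro p q
    have h1 : ∑ l, coeff p.2.1 (pol (pderiv l (F p.1)) P') * W' q l =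
        coeff p.2.1 (dd (F p.1) PX (fun l => C (W' q l))) := by
      rw [dd, coeff_sum]
      refine Finset.sum_congr rfl fun l _ => ?_
      rw [coeff_C_mul, mul_comm]
      rfl
    have h2 : dd (F p.1) PX (fun l => C (W' q l)) = dd (U (σ p.1)) (px P) (fun l => C (W ⟨σ q.1, q.2⟩ l)) := by
      change dd (_ - _) _ _ = _
      rw [ddF_sub, ddF_C_mul, ddF_pow_X _ _ _ _ (by change C (0 : K) = 0; rw [C_0]), mul_zero, sub_zero, dd_subst,
        funext hPXz, funext (hdz q)]
    rw [h1, h2, coeff_dd]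
    have h3 := h.dual ⟨σ p.1, p.2⟩ ⟨σ q.1, q.2⟩
    refine h3.trans ?_
    have h4 : ((⟨σ p.1, p.2⟩ : GG b s d) = ⟨σ q.1, q.2⟩) ↔ p = q := by
      obtain ⟨i, α⟩ := p
      obtain ⟨i', α'⟩ := q
      constructor
      · intro h5
        have h6 : σ i = σ i' := congrArg Sigma.fst h5
        have h7 := hσ h6
        subst h7
        rw [Sigma.mk.injEq] at h5
        have h8 : α = α' := eq_of_heq h5.2
        rw [h8]
      · intro h5
        rw [Sigma.mk.injEq] at h5
        obtain ⟨rfl, h6⟩ := h5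
        rw [eq_of_heq h6]
    simp only [h4]
  -- the point
  have hx1 : ∀ (L : Type u) [Field L] [Algebra K L] (ξ : Fin n → L), (∀ j, aeval ξ (U j) = algebraMap K L (z j)) →
      ∀ l, aeval (Fin.cons 1 ξ : Fin (n + 1) → L) (ze U E z l) = ξ l := by
    intro L _ _ ξ hξ l
    rw [aeval_ze]
    simp only [Fin.cons_zero, Fin.cons_succ, mul_one, hξ, map_sum, map_mul]
    ring
  have hx : ∀ (L : Type u) [Field L] [Algebra K L] (ξ : Fin n → L), (∀ j, aeval ξ (U j) = algebraMap K L (z j)) →
      ∀ i, aeval (Fin.cons 1 ξ : Fin (n + 1) → L) (F i) = 0 := by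
    intro L _ _ ξ hξ i
    have h1 : aeval (Fin.cons 1 ξ : Fin (n + 1) → L) (aeval (ze U E z) (U (σ i))) = aeval ξ (U (σ i)) := by
      have := congrFun (congrArg DFunLike.coe (comp_aeval (ze U E z)
        (aeval (Fin.cons 1 ξ : Fin (n + 1) → L) : MvPolynomial (Fin (n + 1)) K →ₐ[K] L))) (U (σ i))
      refine this.trans ?_
      rw [funext (hx1 L ξ hξ)]
    rw [map_sub, h1, hξ, map_mul, map_pow, aeval_X, aeval_C, Fin.cons_zero, one_pow, mul_one, sub_self]
  obtain ⟨m, R, hR, hdom⟩ := core_pt hσ1 F hF P' W' hp hW hb hadm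
  have hR0 : R 0 ≠ 0 := by
    intro h0
    have h1 := hdom L₀ (Fin.cons 1 ξ₀ : Fin (n + 1) → L₀) (hx L₀ ξ₀ hξ₀) (X 0) (by rw [aeval_X, h0])
    rw [aeval_X, Fin.cons_zero] at h1
    exact one_ne_zero h1
  refine ⟨m, fun l => (R 0)⁻¹ * aeval R (ze U E z l), fun j => ?_, fun L _ _ ξ hξ g hg => ?_⟩
  · rw [Pool.Agent.Helper4.QH.aeval_hom_smul (h.hom j)]
    have hpow : R 0 ^ (d j + 1) ≠ 0 := pow_ne_zero _ hR0
    suffices hs : aeval (fun l => aeval R (ze U E z l)) (U j) = algebraMap K _ (z j) * R 0 ^ (d j + 1) by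
      rw [hs, inv_pow, mul_comm, mul_assoc, mul_inv_cancel₀ hpow, mul_one]
    rcases hσ2 j with hj | ⟨i, rfl⟩
    · -- the linear forms
      have hD : ∀ i, ∑ l, c j l * E i l = if j = i then 1 else 0 := by
        intro i
        by_cases hi : d i = 0
        · exact hdual i j hi hj
        · rw [if_neg (by rintro rfl; exact hi hj)]
          exact Finset.sum_eq_zero fun l _ => by rw [hE0 i hi, Pi.zero_apply, mul_zero]
      have hv : ∑ l, c j l * ∑ i, E i l * z i = z j := by
        simp_rw [Finset.mul_sum, ← mul_assoc]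
        rw [Finset.sum_comm]
        simp_rw [← Finset.sum_mul, hD]
        simp
      have hUj := hc j hj _ (fun m => R m.succ)
      rw [hc j hj, hj, zero_add, pow_one]
      have e1 : ∀ l, c j l • aeval R (ze U E z l) = algebraMap K _ (c j l * ∑ i, E i l * z i) * R 0 +
          (c j l • R l.succ - ∑ i, algebraMap K _ (c j l * E i l) * aeval (fun m : Fin n => R m.succ) (U i)) := by
        intro l
        rw [aeval_ze, Algebra.smul_def, Algebra.smul_def, mul_add, mul_sub, map_mul, Finset.mul_sum]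
        congr 1
        · ring
        · congr 1
          refine Finset.sum_congr rfl fun i _ => ?_
          rw [map_mul]
          ring
      have e2 : ∀ i, ∑ l, algebraMap K (FractionRing (MvPolynomial (Fin m) K)) (c j l * E i l) *
          aeval (fun m : Fin n => R m.succ) (U i) = if j = i then aeval (fun m : Fin n => R m.succ) (U i) else 0 := by
        intro i
        rw [← Finset.sum_mul, ← map_sum, hD]
        split_ifs
        · rw [map_one, one_mul]
        · rw [map_zero, zero_mul]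
      rw [Finset.sum_congr rfl fun l _ => e1 l, Finset.sum_add_distrib, Finset.sum_sub_distrib, ← Finset.sum_mul,
        ← map_sum, hv, Finset.sum_comm (s := (Finset.univ : Finset (Fin n))), Finset.sum_congr rfl fun i _ => e2 i,
        Finset.sum_ite_eq, if_pos (Finset.mem_univ _), hUj, sub_self, add_zero]
    · have h1 := hR i
      rw [map_sub, map_mul, map_pow, aeval_X, aeval_C, sub_eq_zero] at h1
      rw [← h1]
      have := congrFun (congrArg DFunLike.coe (comp_aeval (ze U E z)
        (aeval R : MvPolynomial (Fin (n + 1)) K →ₐ[K] _))) (U (σ i))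
      exact this.symm
  · obtain ⟨G, δ, hG⟩ := homogenise U E z g
    have h1 := hG _ R hR0
    rw [hg, mul_zero] at h1
    have h2 := hG L (Fin.cons 1 ξ) (by rw [Fin.cons_zero]; exact one_ne_zero)
    rw [hdom L (Fin.cons 1 ξ : Fin (n + 1) → L) (hx L ξ hξ) G h1, Fin.cons_zero, one_pow, one_mul, inv_one] at h2
    simp only [one_mul, hx1 L ξ hξ] at h2
    exact h2.symm

end Pool.Agent.Helper10.BD
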