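import Pool.Agent.Helper10.BD.Stm

/-! # Statement of the going down property -/

set_option autoImplicit false

namespace Pool.Agent.Helper10.BD

open MvPolynomial Pool.Agent.Helper48.HY

universe u

/-- MIN: for forms `u j` of large strength, the prime ideals minimal over `(f)`, `f = F (u)`, lie over
prime ideals minimal over `(F)`. -/
def S_MIN : Prop := ∀ (k : Type u) [Field k] [IsAlgClosed k] [CharZero k] (n s : ℕ) (d : Fin s → ℕ)
  (u : Fin s → MvPolynomial (Fin n) k), (∀ j, (u j).IsHomogeneous (d j + 1)) →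
  (∀ (e : ℕ) (c : Fin s → k), c ≠ 0 → (∀ j, c j ≠ 0 → d j = e) →
    ¬ StrLe (e + 1) (bd e (num 1 s d)) (∑ j, c j • u j)) →
  ∀ (I : Ideal (MvPolynomial (Fin s) k)) (P : Ideal (MvPolynomial (Fin n) k)),
    P ∈ (I.map (aeval u : MvPolynomial (Fin s) k →ₐ[k] MvPolynomial (Fin n) k)).minimalPrimes →
    P.comap (aeval u : MvPolynomial (Fin s) k →ₐ[k] MvPolynomial (Fin n) k) ∈ I.minimalPrimes

end Pool.Agent.Helper10.BD
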