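import Pool.Agent.Helper10.BD.Asm3
import Pool.Agent.Helper10.BD.Stm2

/-! # The thresholds; elimination of the regular sequence -/

set_option autoImplicit false

namespace Pool.Agent.Helper10.BD

open MvPolynomial Pool.Agent.Helper4.HY Pool.Agent.Helper48.HY

universe u v

/-- the indices of the forms of degree at least two, and the dimension of the linear space -/
def Good' (s : ℕ) (d : Fin s → ℕ) (a : ℕ) : Prop :=
  ∃ (r : ℕ) (σ : Fin r → Fin s), Function.Injective σ ∧ (∀ i, 1 ≤ d (σ i)) ∧ (∀ j, d j = 0 ∨ ∃ i, σ i = j) ∧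
    r + 1 ≤ a + 1 ∧ Adm (a + 1) (Fin r) (fun i => d (σ i) + 1)

theorem exists_good (s D : ℕ) (d : Fin s → ℕ) (hd : ∀ j, d j < D) : ∃ a, Good' s d a := by
  classical
  let J := {j : Fin s // 1 ≤ d j}
  let ψ : Fin (Fintype.card J) ≃ J := (Fintype.equivFin J).symm
  have h1 : Function.Injective (fun i => (ψ i).1) := Subtype.val_injective.comp ψ.injective
  have h2 : ∀ i, 1 ≤ d (ψ i).1 := fun i => (ψ i).2
  have h3 : ∀ j, d j = 0 ∨ ∃ i, (ψ i).1 = j := by
    intro j
    rcases Nat.eq_zero_or_pos (d j) with h | h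
    · exact Or.inl h
    · exact Or.inr ⟨ψ.symm ⟨j, h⟩, by rw [Equiv.apply_symm_apply]⟩
  rcases Nat.eq_zero_or_pos (Fintype.card J) with h0 | h0
  · refine ⟨0, Fintype.card J, fun i => (ψ i).1, h1, h2, h3, by omega, ?_⟩
    refine Adm.nil _ _ _ ⟨fun i => ?_⟩
    have := i.isLt
    omega
  · obtain ⟨A, hA, hadm, -⟩ := admCI' (Fintype.card J) (D + 3) h0 (by omega) (fun i => d (ψ i).1 + 1)
      (fun i => Nat.succ_le_succ (h2 i)) (fun i => by have := hd (ψ i).1; omega)
    obtain ⟨a, rfl⟩ : ∃ a, A = a + 1 := ⟨A - 1, by omega⟩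
    exact ⟨a, Fintype.card J, fun i => (ψ i).1, h1, h2, h3, hA, hadm⟩

/-- the threshold -/
theorem exists_thr (D : ℕ) : ∃ τ : ℕ → ℕ, ∀ (s : ℕ) (d : Fin s → ℕ), (∀ j, d j < D) →
    (∃ a, Good' s d a ∧ ∀ e < D, bd e (num (a + 1) s d) ≤ τ s) ∧ ∀ e < D, bd e (num 1 s d) ≤ τ s := by
  classical
  choose a ha using fun (s : ℕ) (d : Fin s → Fin D) => exists_good s D (fun j => (d j : ℕ)) (fun j => (d j).2)
  refine ⟨fun s => max (Finset.univ.sup fun x : Fin D × (Fin s → Fin D) =>
      bd x.1 (num (a s x.2 + 1) s (fun j => (x.2 j : ℕ)))) (Finset.univ.sup fun x : Fin D × (Fin s → Fin D) =>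
      bd x.1 (num 1 s (fun j => (x.2 j : ℕ)))), fun s d hd => ⟨⟨a s (fun j => ⟨d j, hd j⟩),
      ha s (fun j => ⟨d j, hd j⟩), fun e he => ?_⟩,
      fun e he => ?_⟩⟩
  · refine le_trans ?_ (le_max_left _ _)
    exact Finset.le_sup (f := fun x : Fin D × (Fin s → Fin D) =>
      bd x.1 (num (a s x.2 + 1) s (fun j => (x.2 j : ℕ)))) (Finset.mem_univ (⟨e, he⟩, fun j => ⟨d j, hd j⟩))
  · refine le_trans ?_ (le_max_right _ _)
    exact Finset.le_sup (f := fun x : Fin D × (Fin s → Fin D) =>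
      bd x.1 (num 1 s (fun j => (x.2 j : ℕ)))) (Finset.mem_univ (⟨e, he⟩, fun j => ⟨d j, hd j⟩))

theorem sum_counts {s D : ℕ} (d : Fin s → ℕ) (hd : ∀ j, d j < D) :
    ∑ e : Fin D, (Finset.univ.filter fun j => d j = e).card = s := by
  classical
  have h1 := Finset.card_eq_sum_card_fiberwise (s := (Finset.univ : Finset (Fin s))) (t := (Finset.univ : Finset (Fin D)))
    (f := fun j => (⟨d j, hd j⟩ : Fin D)) (fun _ _ => Finset.mem_coe.2 (Finset.mem_univ _))
  rw [Finset.card_univ, Fintype.card_fin] at h1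
  conv_rhs => rw [h1]
  refine Finset.sum_congr rfl fun e _ => ?_
  congr 1
  ext j
  simp [Fin.ext_iff]

/-- Regularisation with a threshold which depends on the number of the forms only. -/
theorem reg_thr (hREG : S_REG.{u}) (r D : ℕ) (τ : ℕ → ℕ) : ∃ S : ℕ, ∀ (K : Type u) [Field K] (n : ℕ)
    (f : Fin r → MvPolynomial (Fin n) K), (∀ i, (f i).totalDegree ≤ D) →
      ∃ (s : ℕ) (d : Fin s → ℕ) (u : Fin s → MvPolynomial (Fin n) K), s ≤ S ∧ (∀ j, d j < D) ∧
        (∀ j, (u j).IsHomogeneous (d j + 1)) ∧ (∀ i, f i ∈ Algebra.adjoin K (Set.range u)) ∧ Reg (τ s) d u := by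
  obtain ⟨S, hS⟩ := hREG r D (fun κ => τ (∑ e, κ e))
  refine ⟨S, fun K _ n f hf => ?_⟩
  obtain ⟨s, d, u, h1, h2, h3, h4, h5⟩ := hS K n f hf
  refine ⟨s, d, u, h1, h2, h3, h4, ?_⟩
  have h6 := sum_counts d h2
  simp only [h6] at h5
  exact h5

/-- forms of large strength have a free linear space -/
theorem freeSp_of_reg (hFREE : S_FREE.{u}) {k : Type u} [Field k] [IsAlgClosed k] [CharZero k] {n s a D t : ℕ}
    {d : Fin s → ℕ} (hd : ∀ j, d j < D) {u : Fin s → MvPolynomial (Fin n) k} (hu : ∀ j, (u j).IsHomogeneous (d j + 1))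
    (hreg : Reg t d u) (ht : ∀ e < D, bd e (num (a + 1) s d) ≤ t) :
    ∃ (P : Fin (a + 1) → Fin n → k) (W : GG (a + 1) s d → Fin n → k), FreeSp d u P W := by
  obtain ⟨P, W, h1, h2⟩ := hFREE k n s a d u hu (fun e c hc hsupp hs => by
    obtain ⟨j, hj⟩ := Function.ne_iff.1 hc
    have he : e < D := by
      rw [← hsupp j hj]
      exact hd j
    exact hreg e c hc hsupp (hs.mono (ht e he)))
  exact ⟨P, W, hu, h1, h2⟩

/-- polynomials in forms: the bound for the degrees -/
theorem trunc {k : Type u} [Field k] {n s D : ℕ} {d : Fin s → ℕ} {u : Fin s → MvPolynomial (Fin n) k}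
    (hu : ∀ j, (u j).IsHomogeneous (d j + 1)) {f : MvPolynomial (Fin n) k} (hf : f.totalDegree ≤ D)
    (hfu : f ∈ Algebra.adjoin k (Set.range u)) :
    ∃ F : MvPolynomial (Fin s) k, F.totalDegree ≤ D ∧ aeval u F = f := by
  classical
  rw [Algebra.adjoin_range_eq_range_aeval] at hfu
  obtain ⟨G, hG⟩ := hfu
  have hG : aeval u G = f := hG
  let wt : (Fin s →₀ ℕ) → ℕ := fun m => ∑ j, m j * (d j + 1)
  have hm : ∀ (m : Fin s →₀ ℕ) (c : k), (aeval u (monomial m c)).IsHomogeneous (wt m) := by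
    intro m c
    rw [aeval_monomial, Finsupp.prod_fintype _ _ (fun i => pow_zero _)]
    have h1 : (∏ j, u j ^ m j).IsHomogeneous (∑ j, (d j + 1) * m j) :=
      IsHomogeneous.prod _ _ _ fun j _ => (hu j).pow _
    have h2 := (isHomogeneous_C (Fin n) c).mul h1
    have h3 : 0 + ∑ j, (d j + 1) * m j = wt m := by
      rw [zero_add]
      exact Finset.sum_congr rfl fun j _ => mul_comm _ _
    rw [h3] at h2
    exact h2
  refine ⟨∑ m ∈ G.support.filter (fun m => wt m ≤ D), monomial m (coeff m G), ?_, ?_⟩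
  · refine totalDegree_finsetSum_le fun m hm' => ?_
    have h1 := (Finset.mem_filter.1 hm').2
    refine (totalDegree_monomial_le _ _).trans (le_trans ?_ h1)
    rw [Finsupp.sum_fintype _ _ (fun _ => rfl)]
    exact Finset.sum_le_sum fun j _ => Nat.le_mul_of_pos_right _ (Nat.succ_pos _)
  · have h1 : ∀ e, homogeneousComponent e f = ∑ m ∈ G.support.filter (fun m => wt m = e),
        aeval u (monomial m (coeff m G)) := by
      intro e
      rw [← hG]
      conv_lhs => rw [G.as_sum]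
      rw [map_sum, map_sum, Finset.sum_filter]
      refine Finset.sum_congr rfl fun m _ => ?_
      rw [homogeneousComponent_of_mem ((mem_homogeneousSubmodule _ _).2 (hm m _))]
      simp only [eq_comm]
    have h2 : ∑ e ∈ Finset.range (D + 1), homogeneousComponent e f = f := by
      have h3 := sum_homogeneousComponent f
      conv_rhs => rw [← h3]
      symm
      refine Finset.sum_subset (Finset.range_mono (by omega)) ?_
      intro e _ he
      rw [Finset.mem_range, not_lt] at he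
      exact homogeneousComponent_eq_zero _ _ (by omega)
    rw [map_sum]
    conv_rhs => rw [← h2]
    rw [Finset.sum_congr rfl fun e _ => h1 e]
    rw [← Finset.sum_biUnion]
    · refine Finset.sum_congr ?_ fun _ _ => rfl
      ext m
      simp only [Finset.mem_filter, Finset.mem_biUnion, Finset.mem_range, Nat.lt_succ_iff]
      constructor
      · rintro ⟨h3, h4⟩
        exact ⟨wt m, h4, h3, rfl⟩
      · rintro ⟨e, h3, h4, h5⟩
        exact ⟨h4, by omega⟩
    · intro e _ e' _ hne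
      refine Finset.disjoint_left.2 fun m h3 h4 => ?_
      exact hne ((Finset.mem_filter.1 h3).2.symm.trans (Finset.mem_filter.1 h4).2)

end Pool.Agent.Helper10.BD
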