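import Pool.Agent.Helper10.BD.Asm4

/-! # Function fields -/

set_option autoImplicit false

namespace Pool.Agent.Helper10.BD

open MvPolynomial Pool.Agent.Helper4.HY Pool.Agent.Helper48.HY

universe u v

section
variable {k : Type u} [Field k] {n s : ℕ}

/-- the substitution of the `u j` for the variables -/
noncomputable abbrev su (u : Fin s → MvPolynomial (Fin n) k) : MvPolynomial (Fin s) k →ₐ[k] MvPolynomial (Fin n) k :=
  aeval u

/-- the ideal of the closure of the image -/
noncomputable abbrev im (u : Fin s → MvPolynomial (Fin n) k) (P : Ideal (MvPolynomial (Fin n) k)) :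
    Ideal (MvPolynomial (Fin s) k) := P.comap (su u)

/-- the embedding of the function fields -/
theorem exists_emb (u : Fin s → MvPolynomial (Fin n) k) (P : Ideal (MvPolynomial (Fin n) k)) (hP : P.IsPrime)
    (p : Ideal (MvPolynomial (Fin s) k)) (hp : im u P = p) :
    ∃ ψ : FractionRing (MvPolynomial (Fin s) k ⧸ p) →ₐ[k] FractionRing (MvPolynomial (Fin n) k ⧸ P),
      ∀ G : MvPolynomial (Fin s) k, ψ (algebraMap _ _ (Ideal.Quotient.mk p G)) =
        algebraMap _ _ (Ideal.Quotient.mk P (su u G)) := by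
  subst hp
  have hp : (im u P).IsPrime := Ideal.comap_isPrime _ _
  let g : (MvPolynomial (Fin s) k ⧸ im u P) →ₐ[k] (MvPolynomial (Fin n) k ⧸ P) :=
    Ideal.quotientMapₐ P (aeval u) le_rfl
  have hg : Function.Injective g := Ideal.quotientMap_injective
  let h : (MvPolynomial (Fin s) k ⧸ im u P) →ₐ[k] FractionRing (MvPolynomial (Fin n) k ⧸ P) :=
    (IsScalarTower.toAlgHom k _ _).comp g
  have hh : Function.Injective h :=
    (FaithfulSMul.algebraMap_injective (MvPolynomial (Fin n) k ⧸ P) (FractionRing (MvPolynomial (Fin n) k ⧸ P))).comp hg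
  refine ⟨IsFractionRing.liftAlgHom (K := FractionRing (MvPolynomial (Fin s) k ⧸ im u P)) hh, fun G => ?_⟩
  rw [IsFractionRing.liftAlgHom_apply, IsFractionRing.lift_algebraMap]
  rfl

/-- the generic point of a prime over `p` -/
theorem pt_facts (u : Fin s → MvPolynomial (Fin n) k) (P : Ideal (MvPolynomial (Fin n) k)) (hP : P.IsPrime)
    (p : Ideal (MvPolynomial (Fin s) k)) (hp : im u P = p) :
    ∃ (_ : Algebra (FractionRing (MvPolynomial (Fin s) k ⧸ p)) (FractionRing (MvPolynomial (Fin n) k ⧸ P)))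
      (_ : IsScalarTower k (FractionRing (MvPolynomial (Fin s) k ⧸ p)) (FractionRing (MvPolynomial (Fin n) k ⧸ P))),
      (∀ j, aeval (fun l => algebraMap (MvPolynomial (Fin n) k ⧸ P) (FractionRing (MvPolynomial (Fin n) k ⧸ P))
        (Ideal.Quotient.mk P (X l))) (map (algebraMap k (FractionRing (MvPolynomial (Fin s) k ⧸ p))) (u j)) =
        algebraMap (FractionRing (MvPolynomial (Fin s) k ⧸ p)) (FractionRing (MvPolynomial (Fin n) k ⧸ P))
          (algebraMap _ _ (Ideal.Quotient.mk p (X j)))) ∧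
      ∀ g : MvPolynomial (Fin n) k, aeval (fun l => algebraMap (MvPolynomial (Fin n) k ⧸ P)
        (FractionRing (MvPolynomial (Fin n) k ⧸ P)) (Ideal.Quotient.mk P (X l))) g = 0 → g ∈ P := by
  obtain ⟨ψ, hψ⟩ := exists_emb u P hP p hp
  let K := FractionRing (MvPolynomial (Fin s) k ⧸ p)
  let L := FractionRing (MvPolynomial (Fin n) k ⧸ P)
  let ξ : Fin n → L := fun l => algebraMap _ L (Ideal.Quotient.mk P (X l))
  have hξg : ∀ g : MvPolynomial (Fin n) k, aeval ξ g = algebraMap _ L (Ideal.Quotient.mk P g) := by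
    intro g
    have : aeval ξ = (IsScalarTower.toAlgHom k (MvPolynomial (Fin n) k ⧸ P) L).comp (Ideal.Quotient.mkₐ k P) := by
      apply MvPolynomial.algHom_ext
      intro l
      rw [aeval_X]
      rfl
    exact congrArg (fun f => f g) this
  let i1 : Algebra K L := (ψ : K →+* L).toAlgebra
  have i2 : IsScalarTower k K L := IsScalarTower.of_algebraMap_eq fun x => (ψ.commutes x).symm
  refine ⟨i1, i2, fun j => ?_, fun g hg => ?_⟩
  · change aeval ξ _ = _
    rw [aeval_map_algebraMap, hξg]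
    have h6 := hψ (X j)
    rw [aeval_X] at h6
    exact h6.symm
  · have h6 : aeval ξ g = 0 := hg
    rw [hξg] at h6
    have h7 : Ideal.Quotient.mk P g = 0 := FaithfulSMul.algebraMap_injective _ L (h6.trans (map_zero _).symm)
    exact Ideal.Quotient.eq_zero_iff_mem.1 h7

/-- a rational function field over a subfield of a rational function field -/
theorem ratl_trans {K : Type u} [Field K] [Algebra k K] {e : ℕ}
    (φ : K →ₐ[k] FractionRing (MvPolynomial (Fin e) k)) (m : ℕ) :
    ∃ e' : ℕ, Nonempty (FractionRing (MvPolynomial (Fin m) K) →ₐ[k] FractionRing (MvPolynomial (Fin e') k)) := by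
  let T := FractionRing (MvPolynomial (Fin e) k)
  let _ : Algebra K T := (φ : K →+* T).toAlgebra
  have : IsScalarTower k K T := IsScalarTower.of_algebraMap_eq fun x => (φ.commutes x).symm
  obtain ⟨ι, -⟩ := exists_io K T m
  have h1 : Pool.Agent.R867.Mov.PT k T := Pool.Agent.R867.Mov.PT_rt k e
  have h2 : Pool.Agent.R867.Mov.PT T (FractionRing (MvPolynomial (Fin m) T)) := Pool.Agent.R867.Mov.PT_rt T m
  obtain ⟨e', ⟨eq⟩⟩ := (Pool.Agent.R867.Mov.PT.trans h1 h2).equiv
  have : IsScalarTower k K (FractionRing (MvPolynomial (Fin m) T)) := by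
    refine IsScalarTower.of_algebraMap_eq fun x => ?_
    rw [IsScalarTower.algebraMap_apply k T (FractionRing (MvPolynomial (Fin m) T)),
      IsScalarTower.algebraMap_apply K T (FractionRing (MvPolynomial (Fin m) T)),
      ← IsScalarTower.algebraMap_apply k K T]
  exact ⟨e', ⟨(eq : FractionRing (MvPolynomial (Fin m) T) →ₐ[k] _).comp (ι.restrictScalars k)⟩⟩

end

/-- The generic fibre of `V → Z` is unirational; `V` is contained in every variety with the image `Z`. -/
theorem main_prime {k : Type u} [Field k] [CharZero k] {n s r a : ℕ} {d : Fin s → ℕ}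
    {u : Fin s → MvPolynomial (Fin n) k} {P₀ : Fin (a + 1) → Fin n → k} {W₀ : GG (a + 1) s d → Fin n → k}
    (hfree : FreeSp d u P₀ W₀) (hgood : Good' s d a) {f : Fin r → MvPolynomial (Fin n) k}
    {F : Fin r → MvPolynomial (Fin s) k} (hF : ∀ i, su u (F i) = f i) (P : Ideal (MvPolynomial (Fin n) k))
    (hP : P ∈ (Ideal.span (Set.range f)).minimalPrimes) :
    (∃ (m : ℕ) (φ : FractionRing (MvPolynomial (Fin n) k ⧸ P) →ₐ[k]
        FractionRing (MvPolynomial (Fin m) (FractionRing (MvPolynomial (Fin s) k ⧸ im u P)))),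
      ∀ j, φ (algebraMap _ _ (Ideal.Quotient.mk P (u j))) =
        algebraMap (FractionRing (MvPolynomial (Fin s) k ⧸ im u P)) _
          (algebraMap _ _ (Ideal.Quotient.mk (im u P) (X j)))) ∧
    ∀ P' : Ideal (MvPolynomial (Fin n) k), P'.IsPrime → im u P' = im u P → P ≤ P' := by
  have hPp : P.IsPrime := hP.1.1
  have hp : (im u P).IsPrime := Ideal.comap_isPrime _ _
  let K := FractionRing (MvPolynomial (Fin s) k ⧸ im u P)
  let L := FractionRing (MvPolynomial (Fin n) k ⧸ P)
  obtain ⟨i1, hsc, hξ, hξP⟩ := pt_facts u P hPp (im u P) rfl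
  have hcK : CharZero K := charZero_of_injective_algebraMap (algebraMap k K).injective
  let z : Fin s → K := fun j => algebraMap _ K (Ideal.Quotient.mk (im u P) (X j))
  let ξ : Fin n → L := fun l => algebraMap _ L (Ideal.Quotient.mk P (X l))
  have hzg : ∀ G : MvPolynomial (Fin s) k, aeval z G = algebraMap _ K (Ideal.Quotient.mk (im u P) G) := by
    intro g
    have : aeval z = (IsScalarTower.toAlgHom k (MvPolynomial (Fin s) k ⧸ im u P) K).comp
        (Ideal.Quotient.mkₐ k (im u P)) := by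
      apply MvPolynomial.algHom_ext
      intro l
      rw [aeval_X]
      rfl
    exact congrArg (fun f => f g) this
  obtain ⟨r', σ, h1, h2, h3, h4, h5⟩ := hgood
  obtain ⟨m, ρ, hρ, hdom⟩ := fibre (K := K) (hfree.map (M := K)) σ h1 h2 h3 h4 h5 z ξ hξ
  let Ω := FractionRing (MvPolynomial (Fin m) K)
  have hsc2 : IsScalarTower k K Ω := inferInstance
  have hρ' : ∀ j, aeval ρ (u j) = algebraMap K Ω (z j) := by
    intro j
    rw [← hρ j, aeval_map_algebraMap]
  have hdom' : ∀ g : MvPolynomial (Fin n) k, aeval ρ g = 0 → ∀ P' : Ideal (MvPolynomial (Fin n) k), P'.IsPrime →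
      im u P' = im u P → g ∈ P' := by
    intro g hg P' hP' him
    obtain ⟨i1', hsc', hξ', hξP'⟩ := pt_facts u P' hP' (im u P) him
    have h6 := hdom (FractionRing (MvPolynomial (Fin n) k ⧸ P')) (fun l => algebraMap (MvPolynomial (Fin n) k ⧸ P')
      (FractionRing (MvPolynomial (Fin n) k ⧸ P')) (Ideal.Quotient.mk P' (X l))) hξ' (map (algebraMap k K) g)
      (by rw [aeval_map_algebraMap]; exact hg)
    rw [aeval_map_algebraMap] at h6
    exact hξP' g h6
  let Q : Ideal (MvPolynomial (Fin n) k) := RingHom.ker (aeval ρ : MvPolynomial (Fin n) k →ₐ[k] Ω)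
  have hQ : Q.IsPrime := RingHom.ker_isPrime _
  have hfQ : Ideal.span (Set.range f) ≤ Q := by
    rw [Ideal.span_le]
    rintro _ ⟨i, rfl⟩
    change aeval ρ (f i) = 0
    have h6 : aeval ρ (f i) = aeval (fun j => algebraMap K Ω (z j)) (F i) := by
      rw [← hF i]
      have := congrFun (congrArg DFunLike.coe (comp_aeval u (aeval ρ : MvPolynomial (Fin n) k →ₐ[k] Ω))) (F i)
      refine this.trans ?_
      rw [funext hρ']
    have h7 : aeval (fun j => algebraMap K Ω (z j)) (F i) = algebraMap K Ω (aeval z (F i)) :=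
      aeval_algebraMap_apply Ω z (F i)
    rw [h6, h7, hzg]
    have h8 : F i ∈ im u P := by
      rw [Ideal.mem_comap, hF]
      exact hP.1.2 (Ideal.subset_span ⟨i, rfl⟩)
    rw [Ideal.Quotient.eq_zero_iff_mem.2 h8, map_zero, map_zero]
  have hPQ : P ≤ Q := hP.2 ⟨hQ, hfQ⟩ (fun g hg => hdom' g hg P hPp rfl)
  let φ₀ : (MvPolynomial (Fin n) k ⧸ P) →ₐ[k] Ω := Ideal.Quotient.liftₐ P (aeval ρ) (fun g hg => hPQ hg)
  have hφ₀ : Function.Injective φ₀ := by
    rw [injective_iff_map_eq_zero]
    intro x hx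
    obtain ⟨g, rfl⟩ := Ideal.Quotient.mk_surjective x
    exact Ideal.Quotient.eq_zero_iff_mem.2 (hdom' g hx P hPp rfl)
  refine ⟨⟨m, IsFractionRing.liftAlgHom (K := L) hφ₀, fun j => ?_⟩, fun P' hP' him g hg => hdom' g (hPQ hg) P' hP' him⟩
  rw [IsFractionRing.liftAlgHom_apply, IsFractionRing.lift_algebraMap]
  exact hρ' j

end Pool.Agent.Helper10.BD
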