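import Pool.Agent.Helper10.BD.Min2
import Pool.Agent.Helper64.QH.Grd
import Pool.Agent.Helper45.BD.Int

/-! # Going down for systems of forms of large strength -/

set_option autoImplicit false

namespace Pool.Agent.Helper10.BD

open MvPolynomial Pool.Agent.Helper4.QH

universe u v

/-- going down, from an integral extension of a polynomial ring -/
theorem goingDown_of {R A : Type u} [CommRing R] [CommRing A] [IsDomain R] [IsDomain A] [Algebra R A] {m : ℕ}
    [IsIntegrallyClosed (MvPolynomial (Fin m) R)] (w : Fin m → A)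
    (hinj : Function.Injective (aeval w : MvPolynomial (Fin m) R →ₐ[R] A))
    (hint : (aeval w : MvPolynomial (Fin m) R →ₐ[R] A).toRingHom.IsIntegral) : Algebra.HasGoingDown R A := by
  let T := MvPolynomial (Fin m) R
  let Φ : T →ₐ[R] A := aeval w
  let _ : Algebra T A := Φ.toRingHom.toAlgebra
  have h1 : IsScalarTower R T A := IsScalarTower.of_algebraMap_eq fun x => (Φ.commutes x).symm
  have h2 : Algebra.IsIntegral T A := ⟨hint⟩
  have h3 : FaithfulSMul T A := (faithfulSMul_iff_algebraMap_injective _ _).2 hinj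
  have h4 : Algebra.HasGoingDown T A := inferInstance
  have h5 : Algebra.HasGoingDown R T := inferInstance
  exact Algebra.HasGoingDown.trans R T A

/-- lying over, from an integral extension of a polynomial ring -/
theorem lyingOver_of {R A : Type u} [CommRing R] [CommRing A] {m : ℕ} (Φ : MvPolynomial (Fin m) R →+* A)
    (hinj : Function.Injective Φ) (hint : Φ.IsIntegral) (p : Ideal R) (hp : p.IsPrime) :
    ∃ Q : Ideal A, Q.IsPrime ∧ Q.comap (Φ.comp C) = p := by
  let q : PrimeSpectrum (MvPolynomial (Fin m) R) := ⟨p.comap constantCoeff, Ideal.comap_isPrime _ _⟩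
  obtain ⟨Q, hQ⟩ := hint.comap_surjective hinj q
  refine ⟨Q.asIdeal, Q.2, ?_⟩
  have h1 : Q.asIdeal.comap Φ = p.comap constantCoeff := congrArg PrimeSpectrum.asIdeal hQ
  rw [← Ideal.comap_comap, h1, Ideal.comap_comap]
  have h2 : (constantCoeff : MvPolynomial (Fin m) R →+* R).comp C = RingHom.id R := by
    ext x
    exact constantCoeff_C _ x
  rw [h2, Ideal.comap_id]

/-- the height of a prime minimal over the extension of its contraction -/
theorem height_of {R A : Type u} [CommRing R] [CommRing A] [IsNoetherianRing R] [IsNoetherianRing A] [Algebra R A]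
    [Algebra.HasGoingDown R A] (P : Ideal A) (hP : P.IsPrime) (p : Ideal R) (hp : p.IsPrime)
    (hPp : P.comap (algebraMap R A) = p) (hmin : P ∈ (p.map (algebraMap R A)).minimalPrimes) :
    P.height = p.height := by
  have hlo : P.LiesOver p := ⟨hPp.symm⟩
  rw [Ideal.height_eq_height_add_of_liesOver_of_hasGoingDown p P]
  rw [Ideal.minimalPrimes_eq_comap] at hmin
  obtain ⟨P', hP', rfl⟩ := hmin
  have hP'p : P'.IsPrime := hP'.1.1
  rw [Ideal.map_comap_of_surjective _ Ideal.Quotient.mk_surjective, Ideal.height_eq_zero_iff.2 hP', add_zero]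

/-- lifting of integrality -/
theorem integral_lift {k A T : Type u} [Field k] [CommRing A] [Algebra k A] [CommRing T] (Φ : T →+* A)
    (S : Subalgebra k A) (hS : ∀ x ∈ S, x ∈ Φ.range) {x : A} (hx : IsIntegral S x) : Φ.IsIntegralElem x := by
  obtain ⟨p, hp, hp0⟩ := hx
  have h1 : p.map (algebraMap S A) ∈ Polynomial.lifts Φ := by
    rw [Polynomial.lifts_iff_coeff_lifts]
    intro i
    rw [Polynomial.coeff_map]
    exact hS _ (p.coeff i).2
  obtain ⟨q, hq1, -, hq2⟩ := Polynomial.lifts_and_natDegree_eq_and_monic h1 (hp.map _)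
  refine ⟨q, hq2, ?_⟩
  rw [← Polynomial.eval_map, hq1, Polynomial.eval_map]
  exact hp0

/-- **Noether normalisation** with forms of large strength. -/
theorem noether {k : Type u} [Field k] [IsAlgClosed k] [CharZero k] {n s : ℕ} {d : Fin s → ℕ}
    (u : Fin s → MvPolynomial (Fin n) k) (hu : ∀ j, (u j).IsHomogeneous (d j + 1))
    (hdim : ∀ (Ω : Type u) [Field Ω] [Algebra k Ω] (x : Fin n → Ω), (∀ j, aeval x (u j) = 0) →
      Module.finrank Ω (Tan k x) + s ≤ n) :
    ∃ w : Fin (n - s) → MvPolynomial (Fin n) k,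
      Function.Injective (eval₂Hom (aeval u : MvPolynomial (Fin s) k →ₐ[k] MvPolynomial (Fin n) k).toRingHom w) ∧
      (eval₂Hom (aeval u : MvPolynomial (Fin s) k →ₐ[k] MvPolynomial (Fin n) k).toRingHom w).IsIntegral := by
  classical
  have hsn : s ≤ n := by
    have h1 := hdim k 0 (fun j => by
      have h4 : constantCoeff (u j) = 0 := by
        rw [constantCoeff_eq]
        exact (hu j).coeff_eq_zero (by simp)
      rw [aeval_zero, h4, map_zero])
    omega
  obtain ⟨w, hw, hrad⟩ := exists_lin u hu hdim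
  let R := MvPolynomial (Fin s) k
  let A := MvPolynomial (Fin n) k
  let υ : R →ₐ[k] A := aeval u
  let _ : Algebra R A := υ.toRingHom.toAlgebra
  let T := MvPolynomial (Fin (n - s)) R
  let Φ : T →ₐ[R] A := aeval w
  have hΦC : ∀ g : R, Φ (C g) = aeval u g := fun g => aeval_C w g
  have hΦX : ∀ l, Φ (X l) = w l := fun l => aeval_X w l
  -- integrality
  let G : Fin (s + (n - s)) → A := fun i => Sum.elim u w (finSumFinEquiv.symm i)
  have hGr : Set.range G = Set.range (Sum.elim u w) := by
    have : G = Sum.elim u w ∘ finSumFinEquiv.symm := rfl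
    rw [this]
    exact (finSumFinEquiv.symm.surjective).range_comp _
  have hSI := Pool.Agent.Helper64.QH.sInt k A n (s + (n - s)) (AlgHom.id k A) (by
    intro f hf e
    have hf : f = 0 := hf
    rw [hf, map_zero, map_zero]) G (fun i => Sum.elim (fun j => d j + 1) (fun _ => 1) (finSumFinEquiv.symm i))
    (by
      intro i
      rcases finSumFinEquiv.symm i with j | l
      · exact Nat.succ_pos _
      · exact one_pos) (by
      intro i
      change (Sum.elim u w (finSumFinEquiv.symm i)).IsHomogeneous _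
      rcases finSumFinEquiv.symm i with j | l
      · exact hu j
      · exact hw l) (by
      intro i
      rw [hGr]
      exact (Ideal.radical_mono le_sup_right) (hrad i))
  have hrange : ∀ x ∈ Algebra.adjoin k (Set.range fun j => (AlgHom.id k A) (G j)), x ∈ Φ.toRingHom.range := by
    intro x hx
    induction hx using Algebra.adjoin_induction with
    | mem x hx =>
      obtain ⟨i, rfl⟩ := hx
      change Sum.elim u w (finSumFinEquiv.symm i) ∈ Φ.toRingHom.range
      rcases finSumFinEquiv.symm i with j | l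
      · refine ⟨C (X j), ?_⟩
        change Φ (C (X j)) = u j
        rw [hΦC, aeval_X]
      · exact ⟨X l, hΦX l⟩
    | algebraMap c =>
      refine ⟨C (C c), ?_⟩
      change Φ (C (C c)) = _
      rw [hΦC, aeval_C]
    | add x y _ _ hx hy => exact add_mem hx hy
    | mul x y _ _ hx hy => exact mul_mem hx hy
  have hXi : ∀ i, Φ.toRingHom.IsIntegralElem (X i : A) := fun i => integral_lift Φ.toRingHom _ hrange (hSI i)
  have hint : Φ.toRingHom.IsIntegral := by
    intro x
    induction x using MvPolynomial.induction_on with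
    | C c =>
      have h1 : (C c : A) = Φ.toRingHom (C (C c)) := by
        change C c = Φ (C (C c))
        rw [hΦC, aeval_C]
        rfl
      rw [h1]
      exact Φ.toRingHom.isIntegralElem_map
    | add p q hp hq => exact RingHom.IsIntegralElem.add _ hp hq
    | mul_X p i hp => exact RingHom.IsIntegralElem.mul _ hp (hXi i)
  -- injectivity
  have hinj : Function.Injective Φ := by
    rw [injective_iff_map_eq_zero]
    intro t ht
    by_contra ht0
    let T' := T ⧸ Ideal.span {t}
    let Ψ : T' →+* A := Ideal.Quotient.lift (Ideal.span {t}) Φ.toRingHom (by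
      intro a ha
      obtain ⟨b, rfl⟩ := Ideal.mem_span_singleton'.1 ha
      rw [map_mul]
      change _ * Φ t = 0
      rw [ht, mul_zero])
    let _ : Algebra T' A := Ψ.toAlgebra
    have h1 : Algebra.IsIntegral T' A := by
      refine ⟨fun x => ?_⟩
      obtain ⟨q, hq1, hq2⟩ := hint x
      refine ⟨q.map (Ideal.Quotient.mk _), hq1.map _, ?_⟩
      rw [Polynomial.eval₂_map]
      exact hq2
    have h2 := Pool.Agent.Helper226.ringKrullDim_le_of_isIntegral T' A
    have h3 := ringKrullDim_quotient_succ_le_of_nonZeroDivisor (R := T) (mem_nonZeroDivisors_of_ne_zero ht0)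
    have h4 : ringKrullDim T = n := by
      rw [MvPolynomial.ringKrullDim_of_isNoetherianRing, MvPolynomial.ringKrullDim_of_isNoetherianRing,
        ringKrullDim_eq_zero_of_field]
      simp only [Nat.card_eq_fintype_card, Fintype.card_fin, zero_add]
      norm_cast
      omega
    have h5 : ringKrullDim A = n := by
      rw [MvPolynomial.ringKrullDim_of_isNoetherianRing, ringKrullDim_eq_zero_of_field]
      simp
    rw [h4] at h3
    rw [h5] at h2
    have h6 : ((n : ℕ) : WithBot ℕ∞) + 1 ≤ n := (add_le_add_left h2 1).trans h3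
    have h7 : n + 1 ≤ n := by exact_mod_cast h6
    omega
  exact ⟨w, hinj, hint⟩

/-- **Going down** and lying over for systems of forms of large strength. -/
theorem going_down {k : Type u} [Field k] [IsAlgClosed k] [CharZero k] {n s : ℕ} {d : Fin s → ℕ}
    (u : Fin s → MvPolynomial (Fin n) k) (hu : ∀ j, (u j).IsHomogeneous (d j + 1))
    (hdim : ∀ (Ω : Type u) [Field Ω] [Algebra k Ω] (x : Fin n → Ω), (∀ j, aeval x (u j) = 0) →
      Module.finrank Ω (Tan k x) + s ≤ n) (υ : MvPolynomial (Fin s) k →ₐ[k] MvPolynomial (Fin n) k)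
    (hυ : υ = aeval u) :
    (∀ (P : Ideal (MvPolynomial (Fin n) k)), P.IsPrime → ∀ (p : Ideal (MvPolynomial (Fin s) k)), p.IsPrime →
      p ≤ P.comap υ → ∃ Q : Ideal (MvPolynomial (Fin n) k), Q ≤ P ∧ Q.IsPrime ∧ Q.comap υ = p) ∧
    (∀ p : Ideal (MvPolynomial (Fin s) k), p.IsPrime → ∃ Q : Ideal (MvPolynomial (Fin n) k), Q.IsPrime ∧
      Q.comap υ = p) ∧
    (∀ P : Ideal (MvPolynomial (Fin n) k), P.IsPrime → P ∈ ((P.comap υ).map υ).minimalPrimes →
      P.height = (P.comap υ).height) := by
  obtain ⟨w, hinj, hint⟩ := noether u hu hdim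
  subst hυ
  let R := MvPolynomial (Fin s) k
  let A := MvPolynomial (Fin n) k
  let υ : R →ₐ[k] A := aeval u
  let _ : Algebra R A := υ.toRingHom.toAlgebra
  have hgd : Algebra.HasGoingDown R A := goingDown_of w hinj hint
  refine ⟨fun P hP p hp hle => ?_, fun p hp => ?_, fun P hP hmin => ?_⟩
  · have hPl : P.LiesOver (P.comap υ.toRingHom) := ⟨rfl⟩
    have hpc : (P.comap υ.toRingHom).IsPrime := Ideal.comap_isPrime _ _
    obtain ⟨Q, hQ1, hQ2, hQ3⟩ := Ideal.exists_ideal_le_liesOver_of_le (p := p) (q := P.comap υ.toRingHom) P hle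
    exact ⟨Q, hQ1, hQ2, hQ3.over.symm⟩
  · obtain ⟨Q, hQ, hQp⟩ := lyingOver_of _ hinj hint p hp
    refine ⟨Q, hQ, ?_⟩
    have h1 : (eval₂Hom υ.toRingHom w).comp C = υ.toRingHom := by
      ext x
      · simp
      · simp
    rw [h1] at hQp
    exact hQp
  · exact height_of P hP _ (Ideal.comap_isPrime _ _) rfl hmin

theorem s_MIN (hTR : S_TR.{u}) (hBAS : S_BAS.{u}) (hEXT : S_EXT.{u}) (hCONE : S_CONE.{u}) (hINT : S_INT.{u})
    (hLS : ∀ e, LS.{u} e) : S_MIN.{u} := by
  intro k _ _ _ n s d u hu hreg I P hP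
  have hPp : P.IsPrime := hP.1.1
  have hdim := dim_fibre hTR hBAS hEXT hCONE hINT hLS k n s d u hu hreg
  refine ⟨⟨Ideal.comap_isPrime _ _, Ideal.map_le_iff_le_comap.1 hP.1.2⟩, ?_⟩
  rintro q ⟨hq, hIq⟩ hle
  obtain ⟨Q, hQ1, hQ2, hQ3⟩ := (going_down u hu (fun Ω _ _ x hx => hdim Ω x hx) _ rfl).1 P hPp q hq hle
  have h1 := hP.2 ⟨hQ2, Ideal.map_le_iff_le_comap.2 (by rw [hQ3]; exact hIq)⟩ hQ1
  rw [← hQ3]
  exact Ideal.comap_mono h1

end Pool.Agent.Helper10.BD
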