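import Pool.Agent.Helper10.BD.Asm5
import Pool.Agent.Helper10.BD.Min3
import Pool.Agent.Helper47.BD.REG

/-! # The main theorem -/

set_option autoImplicit false

namespace Pool.Agent.Helper10.BD

open MvPolynomial Pool.Agent.Helper4.HY Pool.Agent.Helper48.HY

universe u

/-- forms of degree `e + 1` with a small singular locus have small strength -/
theorem ls (e : ℕ) : LS.{u} e :=
  ls_all Pool.Agent.Helper47.BD.s_TR Pool.Agent.Helper45.BD.s_BAS Pool.Agent.Helper45.BD.s_EXT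
    Pool.Agent.Helper45.BD.s_GEN e

theorem free : S_FREE.{u} :=
  s_FREE Pool.Agent.Helper47.BD.s_TR Pool.Agent.Helper45.BD.s_BAS Pool.Agent.Helper45.BD.s_CONE
    Pool.Agent.Helper45.BD.s_INT ls

/-- The main theorem. -/
theorem main_thm (r D : ℕ) : ∃ S : ℕ,
    ∀ (k : Type u) [Field k] [IsAlgClosed k] [CharZero k] (n : ℕ) (f : Fin r → MvPolynomial (Fin n) k),
      (∀ i, (f i).totalDegree ≤ D) →
      ∃ (s : ℕ) (d : Fin s → ℕ) (u : Fin s → MvPolynomial (Fin n) k) (F : Fin r → MvPolynomial (Fin s) k), s ≤ S ∧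
        (∀ j, d j < D) ∧ (∀ j, (u j).IsHomogeneous (d j + 1)) ∧ (∀ i, (F i).totalDegree ≤ D) ∧
        (∀ i, su u (F i) = f i) ∧
        Set.BijOn (im u) (Ideal.span (Set.range f)).minimalPrimes (Ideal.span (Set.range F)).minimalPrimes ∧
        ∀ P ∈ (Ideal.span (Set.range f)).minimalPrimes, P.height = (im u P).height ∧
          (∃ (m : ℕ) (φ : FractionRing (MvPolynomial (Fin n) k ⧸ P) →ₐ[k]
            FractionRing (MvPolynomial (Fin m) (FractionRing (MvPolynomial (Fin s) k ⧸ im u P)))),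
            ∀ j, φ (algebraMap _ _ (Ideal.Quotient.mk P (u j))) =
              algebraMap (FractionRing (MvPolynomial (Fin s) k ⧸ im u P)) _
                (algebraMap _ _ (Ideal.Quotient.mk (im u P) (X j)))) ∧
          ((∃ e : ℕ, Nonempty (FractionRing (MvPolynomial (Fin n) k ⧸ P) →ₐ[k]
              FractionRing (MvPolynomial (Fin e) k))) ↔
            (∃ e : ℕ, Nonempty (FractionRing (MvPolynomial (Fin s) k ⧸ im u P) →ₐ[k]
              FractionRing (MvPolynomial (Fin e) k)))) := by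
  obtain ⟨τ, hτ⟩ := exists_thr D
  obtain ⟨S, hS⟩ := reg_thr Pool.Agent.Helper47.BD.s_REG.{u} r D τ
  refine ⟨S, fun k _ _ _ n f hf => ?_⟩
  obtain ⟨s, d, u, h1, h2, h3, h4, h5⟩ := hS k n f hf
  obtain ⟨⟨a, hgood, ha⟩, hmin⟩ := hτ s d h2
  obtain ⟨P₀, W₀, hfree⟩ := freeSp_of_reg free h2 h3 h5 ha
  choose F hF1 hF2 using fun i => trunc h3 (hf i) (h4 i)
  have hdim := dim_fibre Pool.Agent.Helper47.BD.s_TR Pool.Agent.Helper45.BD.s_BAS Pool.Agent.Helper45.BD.s_EXT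
    Pool.Agent.Helper45.BD.s_CONE Pool.Agent.Helper45.BD.s_INT ls k n s d u h3 (fun e c hc hsupp hs => by
      obtain ⟨j, hj⟩ := Function.ne_iff.1 hc
      have he : e < D := by
        rw [← hsupp j hj]
        exact h2 j
      exact h5 e c hc hsupp (hs.mono (hmin e he)))
  obtain ⟨hgd, hlo, hht⟩ := going_down u h3 (fun Ω _ _ x hx => hdim Ω x hx) (su u) rfl
  have hfF : ∀ Q : Ideal (MvPolynomial (Fin n) k), Ideal.span (Set.range f) ≤ Q ↔
      Ideal.span (Set.range F) ≤ im u Q := by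
    intro Q
    rw [Ideal.span_le, Ideal.span_le]
    constructor
    · rintro h _ ⟨i, rfl⟩
      change su u (F i) ∈ Q
      have h6 : su u (F i) = f i := hF2 i
      rw [h6]
      exact h ⟨i, rfl⟩
    · rintro h _ ⟨i, rfl⟩
      have h6 : su u (F i) = f i := hF2 i
      rw [← h6]
      exact h ⟨i, rfl⟩
  have hmp := fun P hP => main_prime hfree hgood hF2 P hP
  refine ⟨s, d, u, F, h1, h2, h3, hF1, hF2, ⟨?_, ?_, ?_⟩, fun P hP => ⟨?_, (hmp P hP).1, ?_, ?_⟩⟩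
  · -- images of components are components
    intro P hP
    have hPp : P.IsPrime := hP.1.1
    refine ⟨⟨Ideal.comap_isPrime _ _, (hfF P).1 hP.1.2⟩, ?_⟩
    rintro q ⟨hq, hIq⟩ hle
    obtain ⟨Q, hQ1, hQ2, hQ3⟩ := hgd P hPp q hq hle
    have h6 := hP.2 ⟨hQ2, (hfF Q).2 (by
      change _ ≤ Q.comap (su u)
      rw [hQ3]
      exact hIq)⟩ hQ1
    rw [← hQ3]
    exact Ideal.comap_mono h6
  · intro P hP P' hP' him
    exact le_antisymm ((hmp P hP).2 P' hP'.1.1 him.symm) ((hmp P' hP').2 P hP.1.1 him)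
  · intro p hp
    obtain ⟨Q, hQ, hQp⟩ := hlo p hp.1.1
    have h6 : Ideal.span (Set.range f) ≤ Q := (hfF Q).2 (by
      change _ ≤ Q.comap (su u)
      rw [hQp]
      exact hp.1.2)
    obtain ⟨P, hP, hPQ⟩ := Ideal.exists_minimalPrimes_le h6
    have hPp : P.IsPrime := hP.1.1
    refine ⟨P, hP, ?_⟩
    have h7 : im u P ≤ p := by
      rw [← hQp]
      exact Ideal.comap_mono hPQ
    exact le_antisymm h7 (hp.2 ⟨Ideal.comap_isPrime _ _, (hfF P).1 hP.1.2⟩ h7)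
  · -- codimension
    have hPp : P.IsPrime := hP.1.1
    refine hht P hPp ⟨⟨hPp, Ideal.map_comap_le⟩, ?_⟩
    rintro Q ⟨hQ, hQ1⟩ hQ2
    refine hP.2 ⟨hQ, (hfF Q).2 ?_⟩ hQ2
    exact ((hfF P).1 hP.1.2).trans (Ideal.map_le_iff_le_comap.1 hQ1)
  · rintro ⟨e, ⟨χ⟩⟩
    obtain ⟨ψ, -⟩ := exists_emb u P hP.1.1 (im u P) rfl
    exact ⟨e, ⟨χ.comp ψ⟩⟩
  · rintro ⟨e, ⟨χ⟩⟩
    obtain ⟨m, φ, -⟩ := (hmp P hP).1
    have hp : (im u P).IsPrime := by
      have := hP.1.1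
      exact Ideal.comap_isPrime _ _
    obtain ⟨e', ⟨χ'⟩⟩ := ratl_trans χ m
    exact ⟨e', ⟨χ'.comp φ⟩⟩

end Pool.Agent.Helper10.BD
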