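import Pool.Agent.Helper10.BD.Free2
import Pool.Agent.Helper4.HY.FinC

/-! # Free linear spaces over arbitrary fields (after helper48 and helper4) -/

set_option autoImplicit false

namespace Pool.Agent.Helper10.BD

open MvPolynomial Pool.Agent.Helper4.HY Pool.Agent.Helper48.HY

universe u v w

section
variable {k : Type u} [Field k] {a N : ℕ}

/-- the derivative of a polynomial along the linear space -/
theorem pderiv_aeval' (P : Fin a → Fin N → k) (l : Fin N) (f : MvPolynomial (Fin N) k) :
    pderiv (Sum.inr l) (aeval (fun j => ∑ i, C (P i j) * X (Sum.inl i) + X (Sum.inr j) :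
      Fin N → MvPolynomial (Fin a ⊕ Fin N) k) f) =
      aeval (fun j => ∑ i, C (P i j) * X (Sum.inl i) + X (Sum.inr j)) (pderiv l f) := by
  classical
  induction f using MvPolynomial.induction_on with
  | C c => simp
  | add p q hp hq => rw [map_add, map_add, hp, hq, map_add, map_add]
  | mul_X p j hp =>
    have h1 : pderiv (Sum.inr l) (∑ i, C (P i j) * X (Sum.inl i) + X (Sum.inr j) :
        MvPolynomial (Fin a ⊕ Fin N) k) = if l = j then 1 else 0 := by
      rw [map_add, map_sum, Finset.sum_eq_zero, zero_add, pderiv_X]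
      · by_cases h : l = j
        · subst h
          rw [if_pos rfl, Pi.single_eq_same]
        · rw [if_neg h, Pi.single_eq_of_ne]
          exact fun h' => h (Sum.inr_injective h').symm
      · intro i _
        rw [Derivation.leibniz, pderiv_X, pderiv_C, smul_zero, add_zero, Pi.single_eq_of_ne, smul_zero]
        exact fun h => Sum.inl_ne_inr h
    have h2 : aeval (fun j => ∑ i, C (P i j) * X (Sum.inl i) + X (Sum.inr j) :
        Fin N → MvPolynomial (Fin a ⊕ Fin N) k) (pderiv l (X j : MvPolynomial (Fin N) k)) =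
        if l = j then 1 else 0 := by
      rw [pderiv_X]
      by_cases h : l = j
      · subst h
        rw [if_pos rfl, Pi.single_eq_same, map_one]
      · rw [if_neg h, Pi.single_eq_of_ne (fun h' => h h'.symm), map_zero]
    have h3 : pderiv l (p * X j) = p * pderiv l (X j) + X j * pderiv l p := by
      rw [Derivation.leibniz, smul_eq_mul, smul_eq_mul]
    rw [h3, map_mul, aeval_X, Derivation.leibniz, hp, h1, map_add (aeval _), map_mul, map_mul, h2,
      aeval_X, smul_eq_mul, smul_eq_mul]

theorem sub_pol' {M : Type v} [Field M] [Algebra k M] (P : Fin a → Fin N → k)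
    (f : MvPolynomial (Fin N) k) :
    aeval (Sum.elim (X : Fin a → MvPolynomial (Fin a) M) (fun _ => 0))
      (aeval (fun j => ∑ i, C (P i j) * X (Sum.inl i) + X (Sum.inr j) :
        Fin N → MvPolynomial (Fin a ⊕ Fin N) k) f) = pol f (fun i l => algebraMap k M (P i l)) := by
  unfold pol
  have h := congrFun (congrArg DFunLike.coe (comp_aeval
    (fun j => ∑ i, C (P i j) * X (Sum.inl i) + X (Sum.inr j) :
        Fin N → MvPolynomial (Fin a ⊕ Fin N) k)
    (aeval (Sum.elim (X : Fin a → MvPolynomial (Fin a) M) (fun _ => 0)) :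
      MvPolynomial (Fin a ⊕ Fin N) k →ₐ[k] MvPolynomial (Fin a) M))) f
  refine h.trans ?_
  congr 2
  funext l
  rw [map_add, map_sum, aeval_X, Sum.elim_inr, add_zero]
  refine Finset.sum_congr rfl fun i _ => ?_
  rw [map_mul, aeval_X, Sum.elim_inl, smul_eq_C_mul]
  congr 1
  exact (aeval_C _ _).trans (IsScalarTower.algebraMap_apply k M (MvPolynomial (Fin a) M) _)

/-- the free linear space in the formulation of helper4 -/
theorem hP_of {r : ℕ} {e : Fin r → ℕ} (F : Fin r → MvPolynomial (Fin N) k) (hF : ∀ i, (F i).IsHomogeneous (e i + 1))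
    (P : Fin a → Fin N → k) (W : GG a r e → Fin N → k) (hp : ∀ i, pol (F i) P = 0)
    (hW : ∀ p q : GG a r e, ∑ l, coeff p.2.1 (pol (pderiv l (F p.1)) P) * W q l = if p = q then 1 else 0) :
    ∀ G : Fin r → MvPolynomial (Fin a ⊕ Fin N) k,
      (∀ i, G i = aeval (fun j => ∑ l, C (P l j) * X (Sum.inl l) + X (Sum.inr j)) (F i)) →
        (∀ i, Van (G i)) ∧ Free (fun i => e i + 1) G := by
  classical
  have hFd : ∀ i l, (pderiv l (F i)).IsHomogeneous (e i) := fun i l => (hF i).pderiv
  intro G hG
  refine ⟨fun i => ?_, ?_⟩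
  · unfold Van
    rw [hG, sub_pol']
    exact hp i
  · intro M _ _ Ψ hΨ
    refine ⟨fun l => ∑ q : GG a r e, coeff q.2.1 (Ψ q.1) * algebraMap k M (W q l),
      fun u => ?_⟩
    unfold lin
    have h1 : ∀ l, aeval (Sum.elim (X : Fin a → MvPolynomial (Fin a) M) (fun _ => 0))
        (pderiv (Sum.inr l) (G u)) = pol (pderiv l (F u)) (fun i l => algebraMap k M (P i l)) := by
      intro l
      rw [hG, pderiv_aeval', sub_pol']
    have h2 : ∀ l α, coeff α (pol (pderiv l (F u)) (fun i l => algebraMap k M (P i l))) =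
        algebraMap k M (coeff α (pol (pderiv l (F u)) P)) := fun l α =>
      coeff_pol_map (Algebra.ofId k M) (pderiv l (F u)) P α
    ext α
    rw [coeff_sum]
    simp only [h1, coeff_C_mul, h2]
    by_cases h : α.degree = e u
    · have h3 : ∀ q : GG a r e, ∑ l, coeff q.2.1 (Ψ q.1) * algebraMap k M (W q l) *
          algebraMap k M (coeff α (pol (pderiv l (F u)) P)) =
          coeff q.2.1 (Ψ q.1) *
            if (⟨u, ⟨α, mem_AA h⟩⟩ : GG a r e) = q then 1 else 0 := by
        intro q
        have h4 := congrArg (algebraMap k M) (hW ⟨u, ⟨α, mem_AA h⟩⟩ q)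
        have h5 : algebraMap k M (if (⟨u, ⟨α, mem_AA h⟩⟩ : GG a r e) = q then 1 else 0) =
            if (⟨u, ⟨α, mem_AA h⟩⟩ : GG a r e) = q then 1 else 0 := by
          split_ifs
          · rw [map_one]
          · rw [map_zero]
        rw [h5, map_sum] at h4
        rw [← h4, Finset.mul_sum]
        refine Finset.sum_congr rfl fun l _ => ?_
        rw [map_mul]
        ring
      have h4 : ∀ l, (∑ q : GG a r e, coeff q.2.1 (Ψ q.1) * algebraMap k M (W q l)) *
          algebraMap k M (coeff α (pol (pderiv l (F u)) P)) =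
          ∑ q : GG a r e, coeff q.2.1 (Ψ q.1) * algebraMap k M (W q l) *
            algebraMap k M (coeff α (pol (pderiv l (F u)) P)) := fun l => Finset.sum_mul _ _ _
      rw [Finset.sum_congr rfl fun l _ => h4 l, Finset.sum_comm,
        Finset.sum_congr rfl fun q _ => h3 q,
        Finset.sum_eq_single (⟨u, ⟨α, mem_AA h⟩⟩ : GG a r e)]
      · rw [if_pos rfl, mul_one]
      · intro q _ hne
        rw [if_neg (Ne.symm hne), mul_zero]
      · intro h0
        exact absurd (Finset.mem_univ _) h0
    · have h3 : coeff α (Ψ u) = 0 := (hΨ u).coeff_eq_zero (by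
        rw [Nat.add_sub_cancel]
        exact h)
      rw [h3]
      refine Finset.sum_eq_zero fun l _ => ?_
      rw [(pol_hom (hFd u l) P).coeff_eq_zero h, map_zero, mul_zero]

/-- base change -/
theorem pol_map_base {M : Type v} [Field M] (φ : k →+* M) (f : MvPolynomial (Fin N) k) (P : Fin a → Fin N → k) :
    pol (map φ f) (fun i l => φ (P i l)) = map φ (pol f P) := by
  let _ : Algebra k M := φ.toAlgebra
  have h1 : map φ (pol f P) = pol f (fun i l => algebraMap k M (P i l)) := by
    have := pol_map (Algebra.ofId k M) f P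
    exact this
  rw [h1]
  unfold pol
  change aeval _ (map (algebraMap k M) f) = _
  rw [aeval_map_algebraMap]
  rfl

end

end Pool.Agent.Helper10.BD
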