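import Pool.Agent.Helper10.BD.Core1

/-! # Base change of derivations: from `K(t)` to `M(t)` -/

set_option autoImplicit false

namespace Pool.Agent.Helper10.BD

open MvPolynomial Pool.Agent.Helper4.HY

universe u

section
variable (K M : Type u) [Field K] [Field M] [Algebra K M] (m : ℕ)

theorem exists_io : ∃ ι : FractionRing (MvPolynomial (Fin m) K) →ₐ[K] FractionRing (MvPolynomial (Fin m) M),
    ∀ i, ι (algebraMap (MvPolynomial (Fin m) K) _ (X i)) = algebraMap (MvPolynomial (Fin m) M) _ (X i) := by
  let g : MvPolynomial (Fin m) K →ₐ[K] FractionRing (MvPolynomial (Fin m) M) :=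
    (IsScalarTower.toAlgHom K (MvPolynomial (Fin m) M) (FractionRing (MvPolynomial (Fin m) M))).comp
      (mapAlgHom (Algebra.ofId K M))
  have hg : Function.Injective g := by
    refine (FaithfulSMul.algebraMap_injective (MvPolynomial (Fin m) M) (FractionRing (MvPolynomial (Fin m) M))).comp ?_
    exact map_injective _ (algebraMap K M).injective
  refine ⟨IsFractionRing.liftAlgHom (K := FractionRing (MvPolynomial (Fin m) K)) hg, fun i => ?_⟩
  rw [IsFractionRing.liftAlgHom_apply, IsFractionRing.lift_algebraMap]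
  change algebraMap (MvPolynomial (Fin m) M) _ (map _ (X i)) = _
  rw [map_X]

variable {K M m}

theorem ext_der [CharZero M] (ι : FractionRing (MvPolynomial (Fin m) K) →ₐ[K] FractionRing (MvPolynomial (Fin m) M))
    (hι : ∀ i, ι (algebraMap (MvPolynomial (Fin m) K) _ (X i)) = algebraMap (MvPolynomial (Fin m) M) _ (X i))
    (D : Derivation K (FractionRing (MvPolynomial (Fin m) K)) (FractionRing (MvPolynomial (Fin m) K))) :
    ∃ D' : Derivation M (FractionRing (MvPolynomial (Fin m) M)) (FractionRing (MvPolynomial (Fin m) M)),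
      ∀ x, D' (ι x) = ι (D x) := by
  obtain ⟨D', hD'⟩ := Pool.Agent.H135R2.VS.exists_der (Pool.Agent.R867.Mov.algInd_X M m)
    (fun i => ι (D (algebraMap (MvPolynomial (Fin m) K) _ (X i))))
  refine ⟨D', fun x => ?_⟩
  have hx : x ∈ IntermediateField.adjoin K (Set.range fun i : Fin m =>
      algebraMap (MvPolynomial (Fin m) K) (FractionRing (MvPolynomial (Fin m) K)) (X i)) := by
    have := Pool.Agent.R867.Mov.adjoin_X K m
    rw [show IntermediateField.adjoin K (Set.range fun i : Fin m =>
      algebraMap (MvPolynomial (Fin m) K) (FractionRing (MvPolynomial (Fin m) K)) (X i)) = ⊤ from this]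
    trivial
  have hK : ∀ c : K, D' (ι (algebraMap K _ c)) = 0 := by
    intro c
    rw [ι.commutes, IsScalarTower.algebraMap_apply K M (FractionRing (MvPolynomial (Fin m) M)), D'.map_algebraMap]
  induction hx using IntermediateField.adjoin_induction with
  | mem x hx =>
    obtain ⟨i, rfl⟩ := hx
    simp only []
    rw [hι, hD']
  | algebraMap c => rw [hK, D.map_algebraMap, map_zero]
  | add x y _ _ hx hy => rw [map_add, map_add, hx, hy, map_add, map_add]
  | inv x _ hx =>
    rw [map_inv₀, D'.leibniz_inv, D.leibniz_inv, hx, smul_eq_mul, smul_eq_mul, map_mul, map_neg, map_pow, map_inv₀]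
  | mul x y _ _ hx hy =>
    rw [map_mul, D'.leibniz, D.leibniz, hx, hy, smul_eq_mul, smul_eq_mul, smul_eq_mul, smul_eq_mul, map_add, map_mul,
      map_mul]

theorem tan_base [CharZero M] (ι : FractionRing (MvPolynomial (Fin m) K) →ₐ[K] FractionRing (MvPolynomial (Fin m) M))
    (hι : ∀ i, ι (algebraMap (MvPolynomial (Fin m) K) _ (X i)) = algebraMap (MvPolynomial (Fin m) M) _ (X i))
    {N r : ℕ} (F : Fin r → MvPolynomial (Fin N) K) (R : Fin N → FractionRing (MvPolynomial (Fin m) K))
    (hder : ∀ w : Fin N → FractionRing (MvPolynomial (Fin m) K), (∀ i, dd (F i) R w = 0) →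
      ∃ D : Derivation K (FractionRing (MvPolynomial (Fin m) K)) (FractionRing (MvPolynomial (Fin m) K)),
        ∀ i, D (R i) = w i)
    (w : Fin N → FractionRing (MvPolynomial (Fin m) M))
    (hw : ∀ i, dd (map (algebraMap K M) (F i)) (fun j => ι (R j)) w = 0) :
    ∃ D : Derivation M (FractionRing (MvPolynomial (Fin m) M)) (FractionRing (MvPolynomial (Fin m) M)),
      ∀ i, D (ι (R i)) = w i := by
  classical
  let A := FractionRing (MvPolynomial (Fin m) K)
  let B := FractionRing (MvPolynomial (Fin m) M)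
  let _ : Algebra A B := (ι : A →+* B).toAlgebra
  have hsm : ∀ (a : A) (b : B), a • b = ι a * b := fun a b => Algebra.smul_def a b
  let b := Module.Basis.ofVectorSpace A B
  have hcol : ∀ i, ∑ j, aeval R (pderiv j (F i)) • w j = 0 := by
    intro i
    rw [← hw i, dd]
    refine Finset.sum_congr rfl fun j _ => ?_
    rw [hsm, pderiv_map, aeval_map_algebraMap, mul_comm]
    congr 1
    have := congrFun (congrArg DFunLike.coe (comp_aeval R ι)) (pderiv j (F i))
    exact this
  have hD : ∀ β, ∃ D : Derivation M B B, ∀ j, D (ι (R j)) = ι (b.repr (w j) β) := by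
    intro β
    obtain ⟨D, hD⟩ := hder (fun j => b.repr (w j) β) (fun i => by
      have h1 := congrArg (fun y => b.repr y β) (hcol i)
      simp only [map_sum, map_smul, map_zero, Finsupp.coe_zero, Pi.zero_apply, Finsupp.coe_finsetSum,
        Finset.sum_apply, Finsupp.coe_smul, Pi.smul_apply, smul_eq_mul] at h1
      rw [dd, ← h1]
      exact Finset.sum_congr rfl fun j _ => mul_comm _ _)
    obtain ⟨D', hD'⟩ := ext_der ι hι D
    exact ⟨D', fun j => by rw [hD', hD]⟩
  choose E hE using hD
  let S : Finset _ := Finset.univ.biUnion fun j => (b.repr (w j)).support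
  refine ⟨∑ β ∈ S, b β • E β, fun j => ?_⟩
  have h1 : (∑ β ∈ S, b β • E β) (ι (R j)) = ∑ β ∈ S, b.repr (w j) β • b β := by
    have h0 : ⇑(∑ β ∈ S, b β • E β) = ∑ β ∈ S, ⇑(b β • E β) :=
      map_sum (Derivation.coeFnAddMonoidHom (R := M) (A := B) (M := B)) _ _
    rw [h0, Finset.sum_apply]
    refine Finset.sum_congr rfl fun β _ => ?_
    rw [Derivation.coe_smul, Pi.smul_apply, hE, smul_eq_mul, hsm, mul_comm]
  rw [h1]
  have h2 := b.linearCombination_repr (w j)
  rw [Finsupp.linearCombination_apply, Finsupp.sum] at h2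
  conv_rhs => rw [← h2]
  symm
  refine Finset.sum_subset ?_ ?_
  · intro β hβ
    exact Finset.mem_biUnion.2 ⟨j, Finset.mem_univ _, hβ⟩
  · intro β _ hβ
    rw [Finsupp.notMem_support_iff.1 hβ, zero_smul]

end

end Pool.Agent.Helper10.BD
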