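import Pool.Agent.Helper10.BD.Core2
import Pool.Agent.Helper4.HY.Loc
import Pool.Agent.Helper21.HY.Kru

/-! # The point over a field of rational functions -/

set_option autoImplicit false

namespace Pool.Agent.Helper10.BD

open MvPolynomial Pool.Agent.Helper4.HY Pool.Agent.Helper48.HY

universe u

/-- A system of forms with a free linear space of large dimension over a field `K` has a point `R` over a field of
rational functions `K(t)` such that all polynomials over `K` which vanish at `R` vanish at all solutions of the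
system in extension fields of `K`. -/
theorem core_pt {K : Type u} [Field K] [CharZero K] {N r b : ℕ} {e : Fin r → ℕ} (he : ∀ i, 1 ≤ e i)
    (F : Fin r → MvPolynomial (Fin N) K) (hF : ∀ i, (F i).IsHomogeneous (e i + 1))
    (P : Fin b → Fin N → K) (W : GG b r e → Fin N → K) (hp : ∀ i, pol (F i) P = 0)
    (hW : ∀ p q : GG b r e, ∑ l, coeff p.2.1 (pol (pderiv l (F p.1)) P) * W q l = if p = q then 1 else 0)
    (hb : r + 1 ≤ b) (hadm : Adm b (Fin r) (fun i => e i + 1)) :
    ∃ (m : ℕ) (R : Fin N → FractionRing (MvPolynomial (Fin m) K)), (∀ i, aeval R (F i) = 0) ∧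
      ∀ (L : Type u) [Field L] [Algebra K L] (x : Fin N → L), (∀ i, aeval x (F i) = 0) →
        ∀ G : MvPolynomial (Fin N) K, aeval R G = 0 → aeval x G = 0 := by
  rcases Nat.eq_zero_or_pos r with rfl | hr
  · refine ⟨N, fun i => algebraMap (MvPolynomial (Fin N) K) _ (X i), fun i => i.elim0, fun L _ _ x hx G hG => ?_⟩
    have h1 : aeval (fun i => algebraMap (MvPolynomial (Fin N) K) (FractionRing (MvPolynomial (Fin N) K)) (X i)) G =
        algebraMap (MvPolynomial (Fin N) K) _ G := by
      have h2 := aeval_algebraMap_apply (FractionRing (MvPolynomial (Fin N) K)) (X : Fin N → MvPolynomial (Fin N) K) G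
      rw [aeval_X_left_apply] at h2
      exact h2
    rw [h1] at hG
    have h3 : G = 0 := FaithfulSMul.algebraMap_injective (MvPolynomial (Fin N) K)
      (FractionRing (MvPolynomial (Fin N) K)) (hG.trans (map_zero _).symm)
    rw [h3, map_zero]
  have hd : ∀ i, 2 ≤ e i + 1 := fun i => Nat.succ_le_succ (he i)
  obtain ⟨Ω, _, _, hPT, hcΩ, R₀, -, h0, hder⟩ := topD Pool.Agent.Helper45.HY.sEE hr hd hadm F hF P
    (hP_of F hF P W hp hW)
  have hPT' : Pool.Agent.R867.Mov.PT K Ω := hPT
  obtain ⟨m, ⟨eq⟩⟩ := hPT'.equiv
  have eq : Ω ≃ₐ[K] FractionRing (MvPolynomial (Fin m) K) := eq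
  have hinj : Function.Injective (eq : Ω →ₐ[K] FractionRing (MvPolynomial (Fin m) K)) := eq.injective
  have hmap : ∀ G : MvPolynomial (Fin N) K, aeval (fun i => eq (R₀ i)) G = eq (aeval R₀ G) := by
    intro G
    have := congrFun (congrArg DFunLike.coe (comp_aeval R₀ (eq : Ω →ₐ[K] FractionRing (MvPolynomial (Fin m) K)))) G
    exact this.symm
  have hder' : ∀ w : Fin N → FractionRing (MvPolynomial (Fin m) K), (∀ i, dd (F i) (fun j => eq (R₀ j)) w = 0) →
      ∃ D : Derivation K (FractionRing (MvPolynomial (Fin m) K)) (FractionRing (MvPolynomial (Fin m) K)),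
        ∀ i, D (eq (R₀ i)) = w i := by
    intro w hw
    obtain ⟨D, hD⟩ := hder (fun j => eq.symm (w j)) (fun i => by
      apply eq.injective
      rw [map_zero, ← hw i, dd, dd, map_sum]
      refine Finset.sum_congr rfl fun j _ => ?_
      rw [map_mul, AlgEquiv.apply_symm_apply, hmap])
    refine ⟨Derivation.mk' ((eq : Ω →ₐ[K] FractionRing (MvPolynomial (Fin m) K)).toLinearMap ∘ₗ D.toLinearMap ∘ₗ
      (eq.symm : FractionRing (MvPolynomial (Fin m) K) →ₐ[K] Ω).toLinearMap) ?_, ?_⟩
    · intro a b
      change eq (D (eq.symm (a * b))) = a * eq (D (eq.symm b)) + b * eq (D (eq.symm a))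
      rw [map_mul, D.leibniz, map_add, smul_eq_mul, smul_eq_mul, map_mul, map_mul, AlgEquiv.apply_symm_apply,
        AlgEquiv.apply_symm_apply]
    · intro i
      change eq (D (eq.symm (eq (R₀ i)))) = w i
      rw [AlgEquiv.symm_apply_apply, hD, AlgEquiv.apply_symm_apply]
  refine ⟨m, fun i => eq (R₀ i), fun i => by rw [hmap, h0, map_zero], fun L _ _ x hx G hG => ?_⟩
  -- base change to an algebraically closed field
  let M := AlgebraicClosure L
  have : CharZero L := charZero_of_injective_algebraMap (algebraMap K L).injective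
  have : CharZero M := charZero_of_injective_algebraMap (algebraMap L M).injective
  have : IsScalarTower K L M := inferInstance
  obtain ⟨ι, hι⟩ := exists_io K M m
  have hder2 := tan_base ι hι F (fun i => eq (R₀ i)) hder'
  let FM : Fin r → MvPolynomial (Fin N) M := fun i => map (algebraMap K M) (F i)
  have hFM : ∀ i, (FM i).IsHomogeneous (e i + 1) := fun i => (hF i).map _
  let PM : Fin b → Fin N → M := fun i l => algebraMap K M (P i l)
  let WM : GG b r e → Fin N → M := fun q l => algebraMap K M (W q l)
  have hpM : ∀ i, pol (FM i) PM = 0 := by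
    intro i
    rw [pol_map_base, hp, map_zero]
  have hWM : ∀ p q : GG b r e, ∑ l, coeff p.2.1 (pol (pderiv l (FM p.1)) PM) * WM q l = if p = q then 1 else 0 := by
    intro p q
    have h1 := congrArg (algebraMap K M) (hW p q)
    rw [map_sum] at h1
    have h2 : algebraMap K M (if p = q then 1 else 0) = if p = q then 1 else 0 := by
      split_ifs
      · rw [map_one]
      · rw [map_zero]
    rw [h2] at h1
    rw [← h1]
    refine Finset.sum_congr rfl fun l _ => ?_
    rw [map_mul, pderiv_map, pol_map_base, coeff_map]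
  have hPM := hP_of FM hFM PM WM hpM hWM
  obtain ⟨-, hns⟩ := nonsing FM PM hPM
  have hind := lin_ind hr hd FM hFM PM hns
  have hbN : b ≤ N := by
    have h1 := hind.fintype_card_le_finrank
    rwa [Fintype.card_fin, Module.finrank_fin_fun] at h1
  have hRM : ∀ G : MvPolynomial (Fin N) K, aeval (fun j => ι (eq (R₀ j))) (map (algebraMap K M) G) =
      ι (aeval (fun j => eq (R₀ j)) G) := by
    intro G
    rw [aeval_map_algebraMap]
    have := congrFun (congrArg DFunLike.coe (comp_aeval (fun j => eq (R₀ j)) ι)) G
    exact this.symm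
  have hdom := dom (s := N - r) sLOC Pool.Agent.Helper21.HY.sKRU (by omega) hr hb hd FM hFM PM hPM
    (fun j => ι (eq (R₀ j))) (fun i => by rw [hRM, hmap, h0, map_zero, map_zero]) hder2
    (map (algebraMap K M) G) (by rw [hRM, hG, map_zero]) (fun j => algebraMap L M (x j)) (fun i => by
      rw [aeval_map_algebraMap]
      have h1 := aeval_algebraMap_apply M x (F i)
      rw [hx i, map_zero] at h1
      exact h1)
  rw [aeval_map_algebraMap] at hdom
  have h1 : algebraMap L M (aeval x G) = 0 := by
    rw [← aeval_algebraMap_apply]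
    exact hdom
  exact (algebraMap L M).injective (h1.trans (map_zero _).symm)

end Pool.Agent.Helper10.BD
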