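import Pool.Agent.Helper10.BD.LS
import Pool.Agent.Helper48.HY.Exc

/-! # Free linear spaces: descent of the point, homogeneity of the conditions

The proof of `descend` is the second half of helper48's `point2`.
-/

set_option autoImplicit false
set_option linter.unusedSectionVars false

namespace Pool.Agent.Helper10.BD

open MvPolynomial Pool.Agent.Helper4.HY Pool.Agent.Helper4.QH Pool.Agent.Helper48.HY

universe u v

section
variable {k : Type u} [Field k] [IsAlgClosed k] {a r N m : ℕ} {e : Fin r → ℕ}

/-- a free linear space over an extension gives one over the algebraically closed base field -/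
theorem descend {F : Fin r → MvPolynomial (Fin N) k} {D : Fin r → Fin m → MvPolynomial (Fin N) k}
    (KK : Type u) [Field KK] [Algebra k KK] (P : Fin (a + 1) → Fin N → KK)
    (hP : ∀ (i : Fin r) (γ : AA (a + 1) (e i + 1)), coeff γ.1 (pol (F i) P) = 0)
    (hlam : ∀ lam : GG (a + 1) r e → KK, (∀ l, ∑ p, lam p * coeff p.2.1 (pol (D p.1 l) P) = 0) → lam = 0) :
    ∃ (P : Fin (a + 1) → Fin N → k) (W : GG (a + 1) r e → Fin m → k),
      (∀ (i : Fin r) (γ : AA (a + 1) (e i + 1)), coeff γ.1 (pol (F i) P) = 0) ∧
      ∀ p q : GG (a + 1) r e, ∑ l, coeff p.2.1 (pol (D p.1 l) P) * W q l =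
        if p = q then 1 else 0 := by
  classical
  let θ : (Fin m → KK) →ₗ[KK] (GG (a + 1) r e → KK) :=
    { toFun := fun η p => ∑ l, coeff p.2.1 (pol (D p.1 l) P) * η l
      map_add' := fun η η' => by
        funext p
        show ∑ l, coeff p.2.1 (pol (D p.1 l) P) * (η l + η' l) =
          ∑ l, coeff p.2.1 (pol (D p.1 l) P) * η l + ∑ l, coeff p.2.1 (pol (D p.1 l) P) * η' l
        rw [← Finset.sum_add_distrib]
        exact Finset.sum_congr rfl fun l _ => by ring
      map_smul' := fun t η => by
        funext p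
        show ∑ l, coeff p.2.1 (pol (D p.1 l) P) * (t * η l) =
          t * ∑ l, coeff p.2.1 (pol (D p.1 l) P) * η l
        rw [Finset.mul_sum]
        exact Finset.sum_congr rfl fun l _ => by ring }
  have hθ : Function.Surjective θ := by
    rw [← LinearMap.range_eq_top]
    by_contra hne
    obtain ⟨f, hf0, hf⟩ := Submodule.exists_le_ker_of_lt_top _ (lt_top_iff_ne_top.2 hne)
    apply hf0
    have h1 : (fun p => f (Pi.single p 1)) = (0 : GG (a + 1) r e → KK) := by
      apply hlam
      intro l
      have h2 : f (θ (Pi.single l 1)) = 0 := hf ⟨_, rfl⟩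
      have h3 : θ (Pi.single l 1) = fun p => coeff p.2.1 (pol (D p.1 l) P) := by
        funext p
        show ∑ m', coeff p.2.1 (pol (D p.1 m') P) * (Pi.single l 1 : Fin m → KK) m' = _
        rw [Finset.sum_eq_single l]
        · rw [Pi.single_eq_same, mul_one]
        · intro m' _ hm
          rw [Pi.single_eq_of_ne hm, mul_zero]
        · intro h
          exact absurd (Finset.mem_univ _) h
      rw [h3, LinearMap.pi_apply_eq_sum_univ f] at h2
      rw [← h2]
      refine Finset.sum_congr rfl fun p _ => ?_
      rw [smul_eq_mul, mul_comm]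
      congr 2
      funext q
      by_cases h : q = p
      · subst h
        rw [Pi.single_eq_same, if_pos rfl]
      · rw [Pi.single_eq_of_ne h, if_neg (Ne.symm h)]
    refine LinearMap.pi_ext' fun p => ?_
    ext
    rw [LinearMap.comp_apply, LinearMap.coe_single, LinearMap.zero_comp, LinearMap.zero_apply]
    exact congrFun h1 p
  choose W hW using fun q : GG (a + 1) r e => hθ (Pi.single q 1)
  let ι := (Fin (a + 1) × Fin N) ⊕ (GG (a + 1) r e × Fin m)
  let f : (Σ i : Fin r, AA (a + 1) (e i + 1)) ⊕ (GG (a + 1) r e × GG (a + 1) r e) →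
      MvPolynomial ι k :=
    Sum.elim (fun p => coeff p.2.1 (pol (F p.1) (fun i l => X (Sum.inl (i, l)))))
      (fun p => ∑ l, coeff p.1.2.1 (pol (D p.1.1 l) (fun i l => X (Sum.inl (i, l)))) *
        X (Sum.inr (p.2, l)) - if p.1 = p.2 then 1 else 0)
  have hval : ∀ {R : Type u} [CommRing R] [Algebra k R] (y : ι → R) (G : MvPolynomial (Fin N) k)
      (α : Fin (a + 1) →₀ ℕ), aeval y (coeff α (pol G (fun i l => (X (Sum.inl (i, l)) :
        MvPolynomial ι k)))) = coeff α (pol G (fun i l => y (Sum.inl (i, l)))) := by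
    intro R _ _ y G α
    have h1 := coeff_pol_map (k := k) (aeval y : MvPolynomial ι k →ₐ[k] R) G
      (fun i l => (X (Sum.inl (i, l)) : MvPolynomial ι k)) α
    rw [← h1]
    congr 2
    funext i l
    rw [aeval_X]
  obtain ⟨y, hy, -⟩ := Pool.Agent.H952R2.Sextic.transfer (kb := k) f 1
    ⟨(Sum.elim (fun p => P p.1 p.2) (fun p => W p.1 p.2) : ι → KK), by
      rintro (γ | ⟨p, q⟩)
      · show aeval _ (coeff γ.2.1 (pol (F γ.1) (fun i l => X (Sum.inl (i, l))))) = 0
        rw [hval]
        exact hP γ.1 γ.2
      · show aeval _ (∑ l, coeff p.2.1 (pol (D p.1 l) (fun i l => X (Sum.inl (i, l)))) *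
          X (Sum.inr (q, l)) - if p = q then 1 else 0) = 0
        rw [map_sub, map_sum, sub_eq_zero]
        have h1 := congrFun (hW q) p
        have h2 : ∑ l, coeff p.2.1 (pol (D p.1 l) P) * W q l =
          (Pi.single q 1 : GG (a + 1) r e → KK) p := h1
        have h3 : aeval (Sum.elim (fun p => P p.1 p.2) (fun p => W p.1 p.2) : ι → KK)
            (if p = q then (1 : MvPolynomial ι k) else 0) = if p = q then 1 else 0 := by
          split_ifs
          · rw [map_one]
          · rw [map_zero]
        rw [h3]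
        have h4 : (Pi.single q 1 : GG (a + 1) r e → KK) p = if p = q then 1 else 0 := by
          by_cases h : p = q
          · subst h
            rw [Pi.single_eq_same, if_pos rfl]
          · rw [Pi.single_eq_of_ne h, if_neg h]
        rw [← h4, ← h2]
        refine Finset.sum_congr rfl fun l _ => ?_
        rw [map_mul, hval, aeval_X]
        rfl, by rw [map_one]; exact one_ne_zero⟩
  refine ⟨fun i l => y (Sum.inl (i, l)), fun q l => y (Sum.inr (q, l)), fun i γ => ?_,
    fun p q => ?_⟩
  · rw [← hval]
    exact hy (Sum.inl ⟨i, γ⟩)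
  · have h1 : aeval y (∑ l, coeff p.2.1 (pol (D p.1 l) (fun i l => X (Sum.inl (i, l)))) *
          X (Sum.inr (q, l)) - (if p = q then 1 else 0) : MvPolynomial ι k) = 0 :=
      hy (Sum.inr (p, q))
    rw [map_sub, map_sum, sub_eq_zero] at h1
    have h3 : aeval y (if p = q then (1 : MvPolynomial ι k) else 0) = if p = q then 1 else 0 := by
      split_ifs
      · rw [map_one]
      · rw [map_zero]
    rw [h3] at h1
    rw [← h1]
    refine Finset.sum_congr rfl fun l _ => ?_
    rw [map_mul, hval, aeval_X]

end

/-- homogeneity of the coefficients -/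
def PhiH {k : Type u} [Field k] {V : Type} {b : ℕ} (e : ℕ) (F : MvPolynomial (Fin b) (MvPolynomial V k)) : Prop :=
  ∀ γ, (coeff γ F).IsHomogeneous e

section
variable {k : Type u} [Field k] {V : Type} {b : ℕ}

theorem PhiH.mul {e e' : ℕ} {F G : MvPolynomial (Fin b) (MvPolynomial V k)} (hF : PhiH e F) (hG : PhiH e' G) :
    PhiH (e + e') (F * G) := by
  classical
  intro γ
  rw [coeff_mul]
  exact IsHomogeneous.sum _ _ _ fun x _ => (hF _).mul (hG _)

theorem PhiH.sum {e : ℕ} {ι : Type*} (s : Finset ι) {F : ι → MvPolynomial (Fin b) (MvPolynomial V k)}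
    (hF : ∀ i ∈ s, PhiH e (F i)) : PhiH e (∑ i ∈ s, F i) := by
  intro γ
  rw [coeff_sum]
  exact IsHomogeneous.sum _ _ _ fun x hx => hF x hx _

theorem PhiH.one : PhiH 0 (1 : MvPolynomial (Fin b) (MvPolynomial V k)) := by
  classical
  intro γ
  rw [coeff_one]
  split_ifs
  · exact isHomogeneous_one _ _
  · exact isHomogeneous_zero _ _ _

theorem PhiH.pow {e : ℕ} {F : MvPolynomial (Fin b) (MvPolynomial V k)} (hF : PhiH e F) (m : ℕ) :
    PhiH (m * e) (F ^ m) := by
  induction m with
  | zero => simpa using PhiH.one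
  | succ m ih =>
    rw [pow_succ, Nat.succ_mul]
    exact ih.mul hF

theorem PhiH.prod {ι : Type*} (s : Finset ι) {e : ι → ℕ} {F : ι → MvPolynomial (Fin b) (MvPolynomial V k)}
    (hF : ∀ i ∈ s, PhiH (e i) (F i)) : PhiH (∑ i ∈ s, e i) (∏ i ∈ s, F i) := by
  classical
  induction s using Finset.induction_on with
  | empty => simpa using PhiH.one
  | insert i s hi ih =>
    rw [Finset.prod_insert hi, Finset.sum_insert hi]
    exact (hF i (Finset.mem_insert_self _ _)).mul (ih fun j hj => hF j (Finset.mem_insert_of_mem hj))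

theorem PhiH.lin (y : Fin b → V) : PhiH 1 (∑ i, (X (y i) : MvPolynomial V k) •
    (X i : MvPolynomial (Fin b) (MvPolynomial V k))) := by
  classical
  refine PhiH.sum _ fun i _ γ => ?_
  rw [coeff_smul, coeff_X, smul_eq_mul]
  split_ifs
  · rw [mul_one]
    exact isHomogeneous_X _ _
  · rw [mul_zero]
    exact isHomogeneous_zero _ _ _

/-- the coefficients of the restriction to the generic linear space are homogeneous -/
theorem hom_coeff {N e : ℕ} {f : MvPolynomial (Fin N) k} (hf : f.IsHomogeneous e) (y : Fin b → Fin N → V)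
    (γ : Fin b →₀ ℕ) : (coeff γ (pol f (fun i l => (X (y i l) : MvPolynomial V k)))).IsHomogeneous e := by
  classical
  have h : PhiH e (pol f (fun i l => (X (y i l) : MvPolynomial V k))) := by
    unfold pol
    rw [aeval_def, eval₂_eq']
    refine PhiH.sum _ fun m hm => ?_
    have h1 : m.degree = e := by
      by_contra hne
      rw [mem_support_iff] at hm
      exact hm (hf.coeff_eq_zero hne)
    have h2 : PhiH 0 (algebraMap k (MvPolynomial (Fin b) (MvPolynomial V k)) (coeff m f)) := by
      intro γ
      have h3 : algebraMap k (MvPolynomial (Fin b) (MvPolynomial V k)) (coeff m f) =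
        MvPolynomial.C (MvPolynomial.C (coeff m f)) := rfl
      rw [h3, coeff_C]
      split_ifs
      · exact isHomogeneous_C _ _
      · exact isHomogeneous_zero _ _ _
    have h4 : PhiH (∑ l, m l * 1) (∏ l, (∑ i, (X (y i l) : MvPolynomial V k) •
        (X i : MvPolynomial (Fin b) (MvPolynomial V k))) ^ m l) :=
      PhiH.prod _ fun l _ => (PhiH.lin fun i => y i l).pow (m l)
    have h5 := h2.mul h4
    have h6 : 0 + ∑ l, m l * 1 = e := by
      rw [zero_add, ← h1, Finsupp.degree_eq_sum]
      exact Finset.sum_congr rfl fun l _ => mul_one _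
    rw [h6] at h5
    exact h5
  exact h γ

end

end Pool.Agent.Helper10.BD
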