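import Pool.Agent.Helper10.BD.Free1

/-! # Free linear spaces on systems of forms of large strength -/

set_option autoImplicit false
set_option linter.unusedSectionVars false

namespace Pool.Agent.Helper10.BD

open MvPolynomial Pool.Agent.Helper48.HY

universe u v

theorem aeval_coeff_pol {k : Type u} [Field k] {V : Type} {b N : ℕ} {R : Type v} [CommRing R] [Algebra k R]
    (y : V → R) (w : Fin b → Fin N → V) (G : MvPolynomial (Fin N) k) (α : Fin b →₀ ℕ) :
    aeval y (coeff α (pol G (fun i l => (X (w i l) : MvPolynomial V k)))) = coeff α (pol G (fun i l => y (w i l))) := by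
  have h1 := coeff_pol_map (k := k) (aeval y : MvPolynomial V k →ₐ[k] R) G
    (fun i l => (X (w i l) : MvPolynomial V k)) α
  rw [← h1]
  congr 2
  funext i l
  rw [aeval_X]

section
variable {K : Type u} [Field K] {Ω : Type u} [Field Ω] [Algebra K Ω]

theorem Tan_cone_le {n b : ℕ} (c : Fin b → K) (z : Fin n → Ω) (q : Option (Fin b × Fin n) → Ω) (h0 : q none = 0)
    (h1 : ∀ i l, q (some (i, l)) = algebraMap K Ω (c i) * z l) :
    Module.finrank Ω (Tan K q) ≤ Module.finrank Ω (Tan K z) := by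
  let Λ : (Fin n → Ω) →ₗ[Ω] (Option (Fin b × Fin n) → Ω) :=
    { toFun := fun y o => o.elim 0 fun p => algebraMap K Ω (c p.1) * y p.2
      map_add' := fun y y' => by
        funext o
        rcases o with _ | ⟨i, l⟩
        · exact (add_zero 0).symm
        · exact mul_add _ _ _
      map_smul' := fun t y => by
        funext o
        rcases o with _ | ⟨i, l⟩
        · exact (mul_zero t).symm
        · change algebraMap K Ω (c i) * (t * y l) = t * (algebraMap K Ω (c i) * y l)
          ring }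
  have h2 : Tan K q ≤ (Tan K z).map Λ := by
    rintro _ ⟨D, rfl⟩
    refine ⟨evD K z D, ⟨D, rfl⟩, ?_⟩
    funext o
    rcases o with _ | ⟨i, l⟩
    · change (0 : Ω) = D (q none)
      rw [h0, map_zero]
    · change algebraMap K Ω (c i) * D (z l) = D (q (some (i, l)))
      rw [h1, D.leibniz, D.map_algebraMap, smul_zero, add_zero, smul_eq_mul]
  exact (Submodule.finrank_mono h2).trans (Submodule.finrank_map_le _ _)

end

/-- the conditions are independent at a point of large dimension -/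
theorem indep (hTR : S_TR.{u}) (hBAS : S_BAS.{u}) (hCONE : S_CONE.{u}) (hINT : S_INT.{u}) (hLS : ∀ e, LS.{u} e)
    (k : Type u) [Field k] [IsAlgClosed k] [CharZero k] (n s a : ℕ) (d : Fin s → ℕ)
    (u : Fin s → MvPolynomial (Fin n) k) (hu : ∀ j, (u j).IsHomogeneous (d j + 1))
    (hreg : ∀ (e : ℕ) (c : Fin s → k), c ≠ 0 → (∀ j, c j ≠ 0 → d j = e) →
      ¬ StrLe (e + 1) (bd e (num (a + 1) s d)) (∑ j, c j • u j))
    (Ω : Type u) [Field Ω] [IsAlgClosed Ω] [Algebra k Ω] (q : Fin (a + 1) × Fin n → Ω)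
    (hdim : (a + 1) * n ≤ Module.finrank Ω (Tan k q) + ∑ j, Fintype.card (AA (a + 1) (d j + 1)))
    (lam : GG (a + 1) s d → Ω)
    (hl : ∀ l, ∑ β, lam β * coeff β.2.1 (pol (pderiv l (u β.1)) (fun i l => q (i, l))) = 0) : lam = 0 := by
  classical
  by_contra hne
  obtain ⟨β₁, hβ₁⟩ := Function.ne_iff.1 hne
  obtain ⟨β₀, hβ₀, hmax⟩ := Finset.exists_max_image (Finset.univ.filter fun β => lam β ≠ 0) (fun β => d β.1)
    ⟨β₁, Finset.mem_filter.2 ⟨Finset.mem_univ _, hβ₁⟩⟩
  replace hβ₀ := (Finset.mem_filter.1 hβ₀).2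
  replace hmax : ∀ β, lam β ≠ 0 → d β.1 ≤ d β₀.1 := fun β hβ =>
    hmax β (Finset.mem_filter.2 ⟨Finset.mem_univ _, hβ⟩)
  obtain ⟨e, he⟩ : ∃ e, e = d β₀.1 := ⟨_, rfl⟩
  let lam' : GG (a + 1) s d → Ω := fun β => (lam β₀)⁻¹ * lam β
  have hl0 : lam' β₀ = 1 := inv_mul_cancel₀ hβ₀
  have hl' : ∀ l, ∑ β, lam' β * coeff β.2.1 (pol (pderiv l (u β.1)) (fun i l => q (i, l))) = 0 := by
    intro l
    have h1 : ∑ β, lam' β * coeff β.2.1 (pol (pderiv l (u β.1)) (fun i l => q (i, l))) =
        (lam β₀)⁻¹ * ∑ β, lam β * coeff β.2.1 (pol (pderiv l (u β.1)) (fun i l => q (i, l))) := by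
      rw [Finset.mul_sum]
      exact Finset.sum_congr rfl fun _ _ => mul_assoc _ _ _
    rw [h1, hl, mul_zero]
  have hmax' : ∀ β, lam' β ≠ 0 → d β.1 ≤ e := fun β hβ => by
    rw [he]
    exact hmax β fun h => hβ (by change (lam β₀)⁻¹ * lam β = 0; rw [h, mul_zero])
  let ψ := Fintype.equivFin (GG (a + 1) s d)
  obtain ⟨K₁, hK1, hlK, hfr⟩ := hBAS k Ω _ (lam' ∘ ψ.symm) (ψ β₀) (by
    rw [Function.comp_apply, Equiv.symm_apply_apply, hl0])
  have hT1 := hfr _ q
  let lam₁ : GG (a + 1) s d → K₁ := fun β => ⟨lam' β, by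
    have := hlK (ψ β)
    rwa [Function.comp_apply, Equiv.symm_apply_apply] at this⟩
  have hl1 : ∀ β, lam₁ β ≠ 0 → d β.1 ≤ e := fun β hβ => hmax' β fun h => hβ (Subtype.ext h)
  have hl10 : lam₁ β₀ ≠ 0 := fun h => by
    have h2 : lam' β₀ = 0 := congrArg Subtype.val h
    rw [hl0] at h2
    exact one_ne_zero h2
  obtain ⟨Ω₁, _, _, p, hhom, hT2, hp⟩ := hCONE K₁ Ω _ q
  -- the equations
  let R : Fin n → MvPolynomial (Option (Fin (a + 1) × Fin n)) K₁ := fun l => ∑ β, MvPolynomial.C (lam₁ β) *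
    (X none ^ (e - d β.1) * map (algebraMap k K₁) (coeff β.2.1 (pol (pderiv l (u β.1))
      (fun i l => (X (some (i, l)) : MvPolynomial (Option (Fin (a + 1) × Fin n)) k)))))
  have hRh : ∀ l, (R l).IsHomogeneous e := by
    intro l
    refine IsHomogeneous.sum _ _ _ fun β _ => ?_
    by_cases h0 : lam₁ β = 0
    · rw [h0, C_0, zero_mul]
      exact isHomogeneous_zero _ _ _
    · have h1 := hl1 β h0
      have h2 : (pderiv l (u β.1)).IsHomogeneous (d β.1) := (hu β.1).pderiv
      have h3 := (hom_coeff h2 (fun i l => some (i, l)) β.2.1 (V := Option (Fin (a + 1) × Fin n))).map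
        (algebraMap k K₁)
      have h4 := (isHomogeneous_C (Option (Fin (a + 1) × Fin n)) (lam₁ β)).mul
        (((isHomogeneous_X K₁ (none : Option (Fin (a + 1) × Fin n))).pow (e - d β.1)).mul h3)
      have h5 : 0 + (1 * (e - d β.1) + d β.1) = e := by omega
      rw [h5] at h4
      exact h4
  have hRq : ∀ l, aeval (fun o : Option (Fin (a + 1) × Fin n) => o.elim (1 : Ω) q) (R l) = 0 := by
    intro l
    rw [← hl' l]
    simp only [R, map_sum, map_mul, map_pow, aeval_X, Option.elim, one_pow, one_mul, aeval_C]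
    refine Finset.sum_congr rfl fun β _ => ?_
    rw [aeval_map_algebraMap, aeval_coeff_pol]
    rfl
  have hRp : ∀ l, aeval p (R l) = 0 := fun l => hp _ _ (hRh l) (hRq l)
  -- the linear form
  obtain ⟨c, hc0, hc⟩ := exists_c (k := k) (KK := K₁) (a := a) (e := d β₀.1)
    (lam := fun α => lam₁ ⟨β₀.1, α⟩) (fun h => hl10 (congrFun h β₀.2))
  obtain ⟨Ω₂, _, _, q₂, hac, hq1, hq2, hT3⟩ := hINT K₁ (Option (Fin (a + 1) × Fin n)) (Option (Fin a × Fin n))
    (Module.finrank Ω (Tan K₁ q) + 1) Ω₁ p hhom hT2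
    (fun o => o.elim (X none) fun y => X (some (y.1.succ, y.2)) -
      MvPolynomial.C (algebraMap k K₁ (c y.1.succ / c 0)) * X (some (0, y.2)))
    (fun _ => 1) (fun _ => le_refl 1) (by
      rintro (_ | ⟨i, l⟩)
      · exact isHomogeneous_X _ _
      · have h1 := (isHomogeneous_C (Option (Fin (a + 1) × Fin n)) (algebraMap k K₁ (c i.succ / c 0))).mul
          (isHomogeneous_X K₁ (some ((0 : Fin (a + 1)), l)))
        rw [zero_add] at h1
        exact (isHomogeneous_X _ _).sub h1)
  let _ : Algebra k Ω₂ := ((algebraMap K₁ Ω₂).comp (algebraMap k K₁)).toAlgebra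
  have : IsScalarTower k K₁ Ω₂ := IsScalarTower.of_algebraMap_eq' rfl
  let z : Fin n → Ω₂ := fun l => (algebraMap k Ω₂ (c 0))⁻¹ * q₂ (some (0, l))
  have hc0' : algebraMap k Ω₂ (c 0) ≠ 0 := by
    rw [Ne, map_eq_zero]
    exact hc0
  have hz : ∀ i l, q₂ (some (i, l)) = algebraMap k Ω₂ (c i) * z l := by
    intro i l
    refine Fin.cases ?_ (fun i => ?_) i
    · rw [← mul_assoc, mul_inv_cancel₀ hc0', one_mul]
    · have h1 : aeval q₂ (X (some (i.succ, l)) - MvPolynomial.C (algebraMap k K₁ (c i.succ / c 0)) *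
        X (some (0, l)) : MvPolynomial (Option (Fin (a + 1) × Fin n)) K₁) = 0 := hq2 (some (i, l))
      rw [map_sub, map_mul, aeval_X, aeval_X, aeval_C, ← IsScalarTower.algebraMap_apply, sub_eq_zero, map_div₀] at h1
      rw [h1, div_eq_mul_inv, mul_assoc]
  have hz0 : q₂ none = 0 := by
    have h1 : aeval q₂ (X none : MvPolynomial (Option (Fin (a + 1) × Fin n)) K₁) = 0 := hq2 none
    rwa [aeval_X] at h1
  have hTz : Module.finrank Ω₂ (Tan K₁ q₂) ≤ Module.finrank Ω₂ (Tan K₁ z) :=
    Tan_cone_le (fun i => algebraMap k K₁ (c i)) z q₂ hz0 (fun i l => by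
      rw [hz, ← IsScalarTower.algebraMap_apply])
  -- the combination
  let γ : Fin s → K₁ := fun j => if d j = e then
    ∑ α : AA (a + 1) (d j), lam₁ ⟨j, α⟩ * algebraMap k K₁ (mu c (d j) α.1) else 0
  have hγ0 : γ β₀.1 ≠ 0 := by
    change (if d β₀.1 = e then _ else _) ≠ _
    rw [if_pos he.symm]
    exact hc
  have hrel : ∀ l, ∑ j, algebraMap K₁ Ω₂ (γ j) * aeval z (pderiv l (u j)) = 0 := by
    intro l
    have h1 := hq1 _ (hRp l)
    simp only [R, map_sum, map_mul, map_pow, aeval_X, aeval_C, hz0] at h1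
    rw [Fintype.sum_sigma] at h1
    rw [← h1]
    refine Finset.sum_congr rfl fun j _ => ?_
    change algebraMap K₁ Ω₂ (if d j = e then _ else _) * _ = _
    split_ifs with hj
    · rw [map_sum, Finset.sum_mul]
      refine Finset.sum_congr rfl fun α _ => ?_
      have h3 : e - d j = 0 := by omega
      have hpd : (pderiv l (u j)).IsHomogeneous (d j) := (hu j).pderiv
      rw [h3, pow_zero, one_mul, aeval_map_algebraMap, aeval_coeff_pol]
      simp only [hz]
      rw [pol_one hpd, map_mul, ← IsScalarTower.algebraMap_apply, mul_assoc]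
    · rw [map_zero, zero_mul]
      symm
      refine Finset.sum_eq_zero fun α _ => ?_
      by_cases h0 : lam₁ ⟨j, α⟩ = 0
      · rw [h0, map_zero, zero_mul]
      · have h2 : d j ≤ e := hl1 _ h0
        have h3 : e - d j ≠ 0 := by omega
        rw [zero_pow h3, zero_mul, mul_zero]
  have hγe : ∀ j, γ j ≠ 0 → d j = e := by
    intro j hj
    by_contra h
    exact hj (if_neg h)
  let v : MvPolynomial (Fin n) K₁ := ∑ j, γ j • map (algebraMap k K₁) (u j)
  have hv : v.IsHomogeneous (e + 1) := by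
    refine IsHomogeneous.sum _ _ _ fun j _ => ?_
    by_cases h0 : γ j = 0
    · rw [h0, zero_smul]
      exact isHomogeneous_zero _ _ _
    · rw [← hγe j h0]
      exact smul_hom ((hu j).map _) _
  have hpv : ∀ l, aeval z (pderiv l v) = 0 := by
    intro l
    rw [← hrel l]
    simp only [v, map_sum]
    refine Finset.sum_congr rfl fun j _ => ?_
    rw [Derivation.map_smul, map_smul, pderiv_map, aeval_map_algebraMap, Algebra.smul_def]
  have hcount : n ≤ Module.finrank Ω₂ (Tan K₁ z) + num (a + 1) s d := by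
    have h1 : num (a + 1) s d = (∑ j, Fintype.card (AA (a + 1) (d j + 1))) + Fintype.card (GG (a + 1) s d) := by
      unfold num
      rw [Finset.sum_add_distrib, Fintype.card_sigma]
    have h2 : Fintype.card (Option (Fin a × Fin n)) = a * n + 1 := by simp
    rw [h2] at hT3
    have h3 : (a + 1) * n = a * n + n := by ring
    rw [h1]
    omega
  have h4 := hLS e K₁ n (num (a + 1) s d) v hv Ω₂ z hpv hcount
  obtain ⟨c', hc', hsupp, hs⟩ := hTR k K₁ n s (e + 1) (bd e (num (a + 1) s d)) u β₀.1 γ hγ0 h4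
  refine hreg e c' (fun h => hc' (congrFun h _)) (fun j hj => ?_) hs
  by_contra h
  exact hj (hsupp j (if_neg h))

/-- **FREE** -/
theorem s_FREE (hTR : S_TR.{u}) (hBAS : S_BAS.{u}) (hCONE : S_CONE.{u}) (hINT : S_INT.{u})
    (hLS : ∀ e, LS.{u} e) : S_FREE.{u} := by
  classical
  intro k _ _ _ n s a d u hu hreg
  -- the generic point
  let V := Fin (a + 1) × Fin n
  let Ω₀ := FractionRing (MvPolynomial V k)
  let p : V → Ω₀ := fun v => algebraMap (MvPolynomial V k) Ω₀ (X v)
  have hp : AlgebraicIndependent k p :=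
    (MvPolynomial.algebraicIndependent_X V k).map' (f := IsScalarTower.toAlgHom k (MvPolynomial V k) Ω₀)
      (FaithfulSMul.algebraMap_injective _ _)
  have hhom : HomPt k p := by
    intro f e hf
    have h1 : f = 0 := by
      by_contra hne
      exact (algebraicIndependent_iff_injective_aeval.1 hp).ne hne (by rw [hf, map_zero])
    rw [h1, map_zero, map_zero]
  have htan : (a + 1) * n ≤ Module.finrank Ω₀ (Tan k p) := by
    have h1 : Tan k p = ⊤ := by
      rw [eq_top_iff]
      intro y _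
      obtain ⟨D, hD⟩ := Pool.Agent.H135R2.VS.exists_der hp y
      exact ⟨D, funext hD⟩
    rw [h1, finrank_top, Module.finrank_fintype_fun_eq_card, Fintype.card_prod, Fintype.card_fin, Fintype.card_fin]
  obtain ⟨Ω, _, _, q, hac, _, hq, hT⟩ := hINT k V (Σ j : Fin s, AA (a + 1) (d j + 1)) ((a + 1) * n) Ω₀ p hhom htan
    (fun β => coeff β.2.1 (pol (u β.1) (fun i l => (X (i, l) : MvPolynomial V k))))
    (fun β => d β.1 + 1) (fun β => Nat.le_add_left _ _) (fun β => hom_coeff (hu β.1) (fun i l => (i, l)) _)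
  have hq' : ∀ (i : Fin s) (γ : AA (a + 1) (d i + 1)), coeff γ.1 (pol (u i) (fun i l => q (i, l))) = 0 := by
    intro i γ
    have h1 := hq ⟨i, γ⟩
    rwa [aeval_coeff_pol] at h1
  obtain ⟨P, W, hP, hW⟩ := descend (k := k) (F := u) (D := fun j l => pderiv l (u j)) (e := d) Ω
    (fun i l => q (i, l)) hq' (fun lam hl => indep hTR hBAS hCONE hINT hLS k n s a d u hu hreg Ω q
      (by rw [Fintype.card_sigma] at hT; exact hT) lam hl)
  refine ⟨P, W, fun j => ?_, hW⟩
  ext γ
  rw [coeff_zero]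
  by_cases h : γ.degree = d j + 1
  · exact hP j ⟨γ, mem_AA h⟩
  · exact (pol_hom (hu j) P).coeff_eq_zero h

end Pool.Agent.Helper10.BD
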