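import Pool.Agent.Helper10.BD.Str
import Pool.Graph.R_seed8.H135R2.VS.Der

/-! # Forms with a small singular locus … have large strength (characteristic zero)

`LS e` for all `e`: a form of degree `e + 1` whose partial derivatives vanish at a point of codimension at most `C`
has strength at most `bd e C`.
-/

set_option autoImplicit false

namespace Pool.Agent.Helper10.BD

open MvPolynomial

universe u

section
variable {K : Type u} [Field K] {Ω : Type u} [Field Ω] [Algebra K Ω] {n : ℕ}

/-- chain rule for a derivation over `K` -/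
theorem der_aeval_sum (D : Derivation K Ω Ω) (x : Fin n → Ω) (f : MvPolynomial (Fin n) K) :
    D (aeval x f) = ∑ l, aeval x (pderiv l f) * D (x l) := by
  classical
  induction f using MvPolynomial.induction_on with
  | C a => simp
  | add p q hp hq =>
    rw [map_add, map_add, hp, hq, ← Finset.sum_add_distrib]
    refine Finset.sum_congr rfl fun l _ => ?_
    rw [map_add, map_add, add_mul]
  | mul_X p j hp =>
    rw [map_mul, aeval_X, Derivation.leibniz, hp, smul_eq_mul, smul_eq_mul, Finset.mul_sum]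
    have h1 : aeval x p * D (x j) = ∑ l, aeval x p * (if l = j then D (x l) else 0) := by
      rw [← Finset.mul_sum]; simp
    rw [h1, ← Finset.sum_add_distrib]
    refine Finset.sum_congr rfl fun l _ => ?_
    rw [Derivation.leibniz, map_add, smul_eq_mul, smul_eq_mul, map_mul, map_mul, aeval_X, pderiv_X]
    by_cases h : j = l
    · subst h
      simp
      ring
    · rw [Pi.single_apply, if_neg (Ne.symm h), if_neg h]
      simp
      ring

theorem mem_Tan (x : Fin n → Ω) {y : Fin n → Ω} : y ∈ Tan K x ↔ ∃ D : Derivation K Ω Ω, (fun l => D (x l)) = y :=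
  Iff.rfl

end

/-- linear independence of the rows: the rank of the kernel -/
theorem finrank_ker_of_li {F : Type u} [Field F] {n m : ℕ} (g : Fin m → Fin n → F) (hg : LinearIndependent F g)
    (T : Submodule F (Fin n → F)) (hT : ∀ y ∈ T, ∀ i, ∑ l, g i l * y l = 0) : Module.finrank F T + m ≤ n := by
  classical
  let A : Matrix (Fin m) (Fin n) F := Matrix.of g
  have h1 : T ≤ LinearMap.ker A.mulVecLin := by
    intro y hy
    rw [LinearMap.mem_ker]
    ext i
    exact hT y hy i
  have h2 := Submodule.finrank_mono h1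
  have h3 := LinearMap.finrank_range_add_finrank_ker A.mulVecLin
  have h4 : Module.finrank F (LinearMap.range A.mulVecLin) = m := by
    have h5 : A.rank = Fintype.card (Fin m) := by
      apply LinearIndependent.rank_matrix
      exact hg
    rw [Fintype.card_fin] at h5
    exact h5
  rw [h4, Module.finrank_fin_fun] at h3
  omega

theorem lb_of_ls (hTR : S_TR.{u}) (hBAS : S_BAS.{u}) (hEXT : S_EXT.{u}) {e : ℕ} (hLS : LS.{u} e) : LB.{u} e := by
  classical
  intro k _ _ _ n m w hw Ω _ _ x hx hn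
  let Ω' := AlgebraicClosure Ω
  let x' : Fin n → Ω' := fun l => algebraMap Ω Ω' (x l)
  have h1 : Module.finrank Ω (Tan k x) ≤ Module.finrank Ω' (Tan k x') := hEXT k Ω Ω' (Fin n) x
  let g : Fin m → Fin n → Ω' := fun i l => aeval x' (pderiv l (w i))
  have hx' : ∀ i, aeval x' (w i) = 0 := by
    intro i
    have : aeval x' (w i) = algebraMap Ω Ω' (aeval x (w i)) := by
      rw [← aeval_algebraMap_apply]
      rfl
    rw [this, hx, map_zero]
  have h2 : ¬ LinearIndependent Ω' g := by
    intro h3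
    have h4 := finrank_ker_of_li g h3 (Tan k x') (by
      intro y hy i
      obtain ⟨D, rfl⟩ := (mem_Tan x').1 hy
      have h5 := der_aeval_sum D x' (w i)
      rw [hx', map_zero] at h5
      exact h5.symm)
    omega
  rw [Fintype.not_linearIndependent_iff] at h2
  obtain ⟨c0, hc0, j₀, hj0⟩ := h2
  let c : Fin m → Ω' := fun i => (c0 j₀)⁻¹ * c0 i
  have hc1 : c j₀ = 1 := inv_mul_cancel₀ hj0
  have hc2 : ∀ l, ∑ i, c i * g i l = 0 := by
    intro l
    have h3 := congrFun hc0 l
    simp only [Finset.sum_apply, Pi.smul_apply, smul_eq_mul, Pi.zero_apply] at h3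
    have h4 : ∑ i, c i * g i l = (c0 j₀)⁻¹ * ∑ i, c0 i * g i l := by
      rw [Finset.mul_sum]
      exact Finset.sum_congr rfl fun i _ => mul_assoc _ _ _
    rw [h4, h3, mul_zero]
  obtain ⟨K₁, hK1, hcK, hfr⟩ := hBAS k Ω' m c j₀ hc1
  have h3 := hfr (Fin n) x'
  let cK : Fin m → K₁ := fun i => ⟨c i, hcK i⟩
  let v : MvPolynomial (Fin n) K₁ := ∑ i, cK i • map (algebraMap k K₁) (w i)
  have hv : v.IsHomogeneous (e + 1) := IsHomogeneous.sum _ _ _ fun i _ => smul_hom ((hw i).map _) _
  have hpv : ∀ l, aeval x' (pderiv l v) = 0 := by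
    intro l
    rw [← hc2 l]
    simp only [v, map_sum]
    refine Finset.sum_congr rfl fun i _ => ?_
    rw [Derivation.map_smul, map_smul, pderiv_map, aeval_map_algebraMap]
    rfl
  have h4 := hLS K₁ n (2 * m) v hv Ω' x' hpv (by omega)
  obtain ⟨c', hc', _, hs⟩ := hTR k K₁ n m (e + 1) (bd e (2 * m)) w j₀ cK (by
    intro h
    have := congrArg Subtype.val h
    change c j₀ = 0 at this
    rw [hc1] at this
    exact one_ne_zero this) h4
  exact ⟨c', fun h => hc' (congrFun h j₀), hs⟩

theorem ls_zero : LS.{u} 0 := by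
  intro k _ _ _ n C v hv Ω _ _ x hx _
  have h1 : v = 0 := by
    have h2 := hv.sum_X_mul_pderiv
    rw [zero_add, one_smul] at h2
    rw [← h2]
    refine Finset.sum_eq_zero fun i _ => ?_
    have h3 : (pderiv i v).IsHomogeneous 0 := hv.pderiv
    have h4 : pderiv i v = MvPolynomial.C (coeff 0 (pderiv i v)) := by
      rw [← totalDegree_eq_zero_iff_eq_C]
      exact Nat.le_zero.1 h3.totalDegree_le
    have h5 := hx i
    rw [h4, aeval_C] at h5
    have h6 : coeff 0 (pderiv i v) = 0 := FaithfulSMul.algebraMap_injective k Ω (by rw [h5, map_zero])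
    rw [h4, h6, C_0, mul_zero]
  rw [h1]
  exact StrLe.zero

/-- the key computation -/
theorem str_of_der {k Ω : Type u} [Field k] [CharZero k] [Field Ω] [CharZero Ω] [Algebra k Ω] {n C e s : ℕ}
    (v : MvPolynomial (Fin n) k) (hv : v.IsHomogeneous (e + 2)) (t : Fin (C + 1) → Fin n → Ω)
    (hder : ∀ y : Fin (C + 1) → Fin n → Ω, ∃ D : Derivation k Ω Ω, ∀ i l, D (t i l) = y i l)
    (c : Fin (C + 1) → Ω) (j : Fin (C + 1)) (hcj : c j = 1)
    (hs : StrLe (e + 1) s (∑ i, c i • ∑ l, t i l • map (algebraMap k Ω) (pderiv l v))) :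
    StrLe (e + 2) (2 * s + C) (map (algebraMap k Ω) v) := by
  classical
  obtain ⟨m, p, q, a, b, hm, h1, h2⟩ := hs
  choose D hD using fun l : Fin n => hder (fun i l' => if i = j ∧ l' = l then 1 else 0)
  set w : Fin (C + 1) → MvPolynomial (Fin n) Ω := fun i => ∑ l, t i l • map (algebraMap k Ω) (pderiv l v) with hwdef
  have hw : ∀ i, (w i).IsHomogeneous (e + 1) := fun i =>
    IsHomogeneous.sum _ _ _ fun l _ => smul_hom ((hv.pderiv (i := l)).map _) _
  have hdw : ∀ i l, dc (D l) (w i) = if i = j then map (algebraMap k Ω) (pderiv l v) else 0 := by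
    intro i l
    simp only [w, dc_sum]
    have h3 : ∀ l', dc (D l) (t i l' • map (algebraMap k Ω) (pderiv l' v)) =
        if i = j ∧ l' = l then map (algebraMap k Ω) (pderiv l' v) else 0 := by
      intro l'
      rw [smul_eq_C_mul, dc_mul, dc_map, mul_zero, add_zero, dc_C, hD]
      split_ifs
      · rw [C_1, one_mul]
      · rw [C_0, zero_mul]
    rw [Finset.sum_congr rfl fun l' _ => h3 l']
    by_cases hi : i = j
    · simp [hi]
    · simp [hi]
  have h3 : ∀ l, map (algebraMap k Ω) (pderiv l v) = (∑ μ, dc (D l) (a μ) * b μ) + (∑ μ, a μ * dc (D l) (b μ)) +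
      ∑ i : {i // i ≠ j}, MvPolynomial.C (- D l (c i)) * w i := by
    intro l
    have h4 := congrArg (dc (D l)) h2
    rw [dc_sum, dc_sum] at h4
    have h5 : ∀ i, dc (D l) (c i • w i) = MvPolynomial.C (D l (c i)) * w i +
        (if i = j then map (algebraMap k Ω) (pderiv l v) else 0) := by
      intro i
      rw [smul_eq_C_mul, dc_mul, dc_C, hdw]
      split_ifs with hi
      · rw [hi, hcj, C_1, one_mul]
      · rw [mul_zero]
    rw [Finset.sum_congr rfl fun i _ => h5 i, Finset.sum_add_distrib, Finset.sum_ite_eq' Finset.univ j,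
      if_pos (Finset.mem_univ _)] at h4
    have h6 : ∑ i, MvPolynomial.C (D l (c i)) * w i =
        ∑ i : {i // i ≠ j}, MvPolynomial.C (D l (c i)) * w i := by
      rw [← Finset.add_sum_erase _ _ (Finset.mem_univ j), hcj, Derivation.map_one_eq_zero, C_0, zero_mul, zero_add]
      exact (Finset.sum_subtype (Finset.univ.erase j) (p := fun i => i ≠ j) (by simp) _)
    rw [h6] at h4
    have h7 : ∑ i : {i // i ≠ j}, MvPolynomial.C (- D l (c i)) * w i =
        - ∑ i : {i // i ≠ j}, MvPolynomial.C (D l (c i)) * w i := by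
      rw [← Finset.sum_neg_distrib]
      exact Finset.sum_congr rfl fun i _ => by rw [C_neg, neg_mul]
    rw [← Finset.sum_add_distrib, ← Finset.sum_congr rfl fun μ _ => dc_mul (D l) (a μ) (b μ), ← h4, h7]
    ring
  -- Euler
  set V := map (algebraMap k Ω) v with hV
  have hVh : V.IsHomogeneous (e + 2) := hv.map _
  have h4 : (e + 2) • V = ∑ l, X l * map (algebraMap k Ω) (pderiv l v) := by
    rw [← hVh.sum_X_mul_pderiv]
    exact Finset.sum_congr rfl fun l _ => by rw [hV, pderiv_map]
  let ι := (Fin m ⊕ Fin m) ⊕ {i : Fin (C + 1) // i ≠ j}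
  let P : ι → ℕ := Sum.elim (Sum.elim (fun μ => p μ + 1) p) (fun _ => 1)
  let Q : ι → ℕ := Sum.elim (Sum.elim q (fun μ => q μ + 1)) (fun _ => e + 1)
  let A : ι → MvPolynomial (Fin n) Ω := Sum.elim (Sum.elim (fun μ => ∑ l, X l * dc (D l) (a μ)) a)
    (fun i => ∑ l, X l * MvPolynomial.C (- D l (c i)))
  let B : ι → MvPolynomial (Fin n) Ω := Sum.elim (Sum.elim b (fun μ => ∑ l, X l * dc (D l) (b μ)))
    (fun i => w i)
  have h5 : (e + 2) • V = ∑ i, A i * B i := by
    rw [h4, Finset.sum_congr rfl fun l _ => by rw [h3 l]]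
    rw [Fintype.sum_sum_type, Fintype.sum_sum_type]
    simp only [A, B, Sum.elim_inl, Sum.elim_inr, mul_add, Finset.sum_add_distrib]
    congr 1
    · congr 1
      · simp only [Finset.mul_sum, Finset.sum_mul]
        rw [Finset.sum_comm]
        exact Finset.sum_congr rfl fun _ _ => Finset.sum_congr rfl fun _ _ => by ring
      · simp only [Finset.mul_sum]
        rw [Finset.sum_comm]
        exact Finset.sum_congr rfl fun _ _ => Finset.sum_congr rfl fun _ _ => by ring
    · simp only [Finset.mul_sum, Finset.sum_mul]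
      rw [Finset.sum_comm]
      exact Finset.sum_congr rfl fun _ _ => Finset.sum_congr rfl fun _ _ => by ring
  have h6 : StrLe (e + 2) (2 * s + C) (∑ i, A i * B i) := by
    refine StrLe.of_fintype ?_ P Q A B ?_
    · simp only [ι, Fintype.card_sum, Fintype.card_fin, Fintype.card_subtype_compl, Fintype.card_subtype_eq]
      omega
    · rintro ((μ | μ) | i)
      · obtain ⟨g1, g2, g3, g4, g5⟩ := h1 μ
        refine ⟨Nat.le_add_left _ _, g2, ?_, ?_, g5⟩
        · change p μ + 1 + q μ = e + 2
          omega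
        · change (∑ l, X l * dc (D l) (a μ)).IsHomogeneous (p μ + 1)
          refine IsHomogeneous.sum _ _ _ fun l _ => ?_
          have := (isHomogeneous_X Ω l).mul (dc_hom (D l) g4)
          rwa [add_comm] at this
      · obtain ⟨g1, g2, g3, g4, g5⟩ := h1 μ
        refine ⟨g1, Nat.le_add_left _ _, ?_, g4, ?_⟩
        · change p μ + (q μ + 1) = e + 2
          omega
        · change (∑ l, X l * dc (D l) (b μ)).IsHomogeneous (q μ + 1)
          refine IsHomogeneous.sum _ _ _ fun l _ => ?_
          have := (isHomogeneous_X Ω l).mul (dc_hom (D l) g5)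
          rwa [add_comm] at this
      · refine ⟨le_refl 1, Nat.le_add_left _ _, ?_, ?_, hw i⟩
        · change 1 + (e + 1) = e + 2
          omega
        · change (∑ l, X l * MvPolynomial.C (- D l (c i))).IsHomogeneous 1
          refine IsHomogeneous.sum _ _ _ fun l _ => ?_
          have := (isHomogeneous_X Ω l).mul (isHomogeneous_C (Fin n) (- D l (c i)))
          rwa [add_zero] at this
  have h7 := h6.smul ((e + 2 : ℕ) : Ω)⁻¹
  have h8 : ((e + 2 : ℕ) : Ω) ≠ 0 := Nat.cast_ne_zero.2 (by omega)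
  rw [← h5, ← Nat.cast_smul_eq_nsmul Ω, smul_smul, inv_mul_cancel₀ h8, one_smul] at h7
  exact h7

theorem ls_step (hTR : S_TR.{u}) (hGEN : S_GEN.{u}) {e : ℕ} (hLB : LB.{u} e) : LS.{u} (e + 1) := by
  classical
  intro k _ _ _ n C v hv Ω _ _ x hx hn
  let κ := Fin (C + 1) × Fin n
  let Ω' := AlgebraicClosure (FractionRing (MvPolynomial κ Ω))
  have : CharZero Ω := charZero_of_injective_algebraMap (FaithfulSMul.algebraMap_injective k Ω)
  have : IsScalarTower k Ω Ω' := by
    have h1 : IsScalarTower k Ω (FractionRing (MvPolynomial κ Ω)) := inferInstance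
    infer_instance
  have : CharZero Ω' := charZero_of_injective_algebraMap (FaithfulSMul.algebraMap_injective Ω Ω')
  let t : κ → Ω' := fun i => algebraMap (FractionRing (MvPolynomial κ Ω)) Ω' (algebraMap (MvPolynomial κ Ω) _ (X i))
  have ht : AlgebraicIndependent Ω t := by
    have h1 := (MvPolynomial.algebraicIndependent_X κ Ω)
    have h2 : AlgebraicIndependent Ω (fun i => algebraMap (MvPolynomial κ Ω) (FractionRing (MvPolynomial κ Ω)) (X i)) :=
      h1.map' (f := IsScalarTower.toAlgHom Ω (MvPolynomial κ Ω) (FractionRing (MvPolynomial κ Ω)))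
        (FaithfulSMul.algebraMap_injective _ _)
    exact h2.map' (f := IsScalarTower.toAlgHom Ω (FractionRing (MvPolynomial κ Ω)) Ω')
        (FaithfulSMul.algebraMap_injective _ _)
  let x' : Fin n → Ω' := fun l => algebraMap Ω Ω' (x l)
  obtain ⟨K₁, hK1, htK, hfr⟩ := hGEN k Ω Ω' κ t ht
  have h1 : Module.finrank Ω (Tan k x) ≤ Module.finrank Ω' (Tan K₁ x') := hfr (Fin n) x
  let tK : κ → K₁ := fun i => ⟨t i, htK i⟩
  let w : Fin (C + 1) → MvPolynomial (Fin n) K₁ := fun i => ∑ l, tK (i, l) • map (algebraMap k K₁) (pderiv l v)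
  have hw : ∀ i, (w i).IsHomogeneous (e + 1) := fun i =>
    IsHomogeneous.sum _ _ _ fun l _ => smul_hom ((hv.pderiv (i := l)).map _) _
  have hxw : ∀ i, aeval x' (w i) = 0 := by
    intro i
    simp only [w, map_sum]
    refine Finset.sum_eq_zero fun l _ => ?_
    rw [map_smul, aeval_map_algebraMap]
    have : aeval x' (pderiv l v) = algebraMap Ω Ω' (aeval x (pderiv l v)) := by
      rw [← aeval_algebraMap_apply]
      rfl
    rw [this, hx, map_zero, smul_zero]
  obtain ⟨c0, hc0, hs⟩ := hLB K₁ n (C + 1) w hw Ω' x' hxw (by omega)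
  obtain ⟨j, hj⟩ := Function.ne_iff.1 hc0
  have hj' : c0 j ≠ 0 := hj
  have hs2 := hs.smul (c0 j)⁻¹
  let c : Fin (C + 1) → K₁ := fun i => (c0 j)⁻¹ * c0 i
  have hs3 : (c0 j)⁻¹ • ∑ i, c0 i • w i = ∑ i, c i • w i := by
    rw [Finset.smul_sum]
    exact Finset.sum_congr rfl fun i _ => smul_smul _ _ _
  rw [hs3] at hs2
  -- pass to `Ω'`
  obtain ⟨m, p, q, a, b, hm, g1, g2⟩ := hs2.map (algebraMap K₁ Ω')
  have hs4 : StrLe (e + 1) (bd e (2 * (C + 1)))
      (∑ i, (c i : Ω') • ∑ l, t (i, l) • map (algebraMap k Ω') (pderiv l v)) := by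
    refine ⟨m, p, q, a, b, hm, g1, ?_⟩
    rw [← g2, map_sum]
    refine Finset.sum_congr rfl fun i _ => ?_
    rw [smul_eq_C_mul, smul_eq_C_mul, map_mul, map_C]
    congr 1
    simp only [w, map_sum]
    refine Finset.sum_congr rfl fun l _ => ?_
    rw [smul_eq_C_mul, smul_eq_C_mul, map_mul, map_C, map_map]
    rfl
  have hs5 := str_of_der (k := k) (Ω := Ω') v hv (fun i l => t (i, l)) (by
    intro y
    obtain ⟨D, hD⟩ := Pool.Agent.H135R2.VS.exists_der (K := Ω) (L := Ω') ht (fun i => y i.1 i.2)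
    exact ⟨D.restrictScalars k, fun i l => hD (i, l)⟩) (fun i => (c i : Ω')) j (by
      change ((c j : K₁) : Ω') = 1
      have : c j = 1 := inv_mul_cancel₀ hj'
      rw [this]
      rfl) hs4
  obtain ⟨c', hc', _, hs6⟩ := hTR k Ω' n 1 (e + 2) (2 * bd e (2 * (C + 1)) + C) (fun _ => v) 0 (fun _ => 1)
    one_ne_zero (by simpa using hs5)
  have hs7 := hs6.smul (c' 0)⁻¹
  simp only [Finset.univ_unique, Fin.default_eq_zero, Finset.sum_singleton] at hs7
  rw [smul_smul, inv_mul_cancel₀ hc', one_smul] at hs7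
  exact hs7

/-- Forms with a small singular locus have large strength. -/
theorem ls_all (hTR : S_TR.{u}) (hBAS : S_BAS.{u}) (hEXT : S_EXT.{u}) (hGEN : S_GEN.{u}) : ∀ e, LS.{u} e
  | 0 => ls_zero
  | e + 1 => ls_step hTR hGEN (lb_of_ls hTR hBAS hEXT (ls_all hTR hBAS hEXT hGEN e))

end Pool.Agent.Helper10.BD
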