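import Pool.Agent.Helper10.BD.Free2
import Pool.Agent.Helper10.BD.Stm2

/-! # The dimension of the common zeros of forms of large strength -/

set_option autoImplicit false

namespace Pool.Agent.Helper10.BD

open MvPolynomial Pool.Agent.Helper48.HY

universe u v

theorem card_AA1 (e : ℕ) : Fintype.card (AA (0 + 1) e) = 1 := by
  rw [card_AA]
  have : 0 + 1 + e - 1 = e := by omega
  rw [this, Nat.choose_self]

/-- A system of `s` forms of large strength: all common zeros are of codimension at least `s`. -/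
theorem dim_fibre (hTR : S_TR.{u}) (hBAS : S_BAS.{u}) (hEXT : S_EXT.{u}) (hCONE : S_CONE.{u}) (hINT : S_INT.{u})
    (hLS : ∀ e, LS.{u} e) (k : Type u) [Field k] [IsAlgClosed k] [CharZero k] (n s : ℕ) (d : Fin s → ℕ)
    (u : Fin s → MvPolynomial (Fin n) k) (hu : ∀ j, (u j).IsHomogeneous (d j + 1))
    (hreg : ∀ (e : ℕ) (c : Fin s → k), c ≠ 0 → (∀ j, c j ≠ 0 → d j = e) →
      ¬ StrLe (e + 1) (bd e (num 1 s d)) (∑ j, c j • u j))
    (Ω : Type u) [Field Ω] [Algebra k Ω] (x : Fin n → Ω) (hx : ∀ j, aeval x (u j) = 0) :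
    Module.finrank Ω (Tan k x) + s ≤ n := by
  classical
  by_contra hcon
  push Not at hcon
  let Ω' := AlgebraicClosure Ω
  have : CharZero Ω := charZero_of_injective_algebraMap (algebraMap k Ω).injective
  have : CharZero Ω' := charZero_of_injective_algebraMap (algebraMap Ω Ω').injective
  let x' : Fin n → Ω' := fun l => algebraMap Ω Ω' (x l)
  have h1 : Module.finrank Ω (Tan k x) ≤ Module.finrank Ω' (Tan k x') := hEXT k Ω Ω' (Fin n) x
  have hx' : ∀ j, aeval x' (u j) = 0 := by
    intro j
    have : aeval x' (u j) = algebraMap Ω Ω' (aeval x (u j)) := by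
      rw [← aeval_algebraMap_apply]
      rfl
    rw [this, hx, map_zero]
  let q : Fin (0 + 1) × Fin n → Ω' := fun v => x' v.2
  have hTq : Module.finrank Ω' (Tan k x') ≤ Module.finrank Ω' (Tan k q) := by
    let Λ : (Fin n → Ω') →ₗ[Ω'] (Fin (0 + 1) × Fin n → Ω') := LinearMap.funLeft Ω' Ω' Prod.snd
    have hΛ : Function.Injective Λ :=
      LinearMap.funLeft_injective_of_surjective _ _ _ (fun l => ⟨((0 : Fin (0 + 1)), l), rfl⟩)
    have h2 : (Tan k x').map Λ ≤ Tan k q := by
      rintro _ ⟨_, ⟨D, rfl⟩, rfl⟩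
      exact ⟨D, rfl⟩
    have h3 := (Submodule.equivMapOfInjective Λ hΛ (Tan k x')).finrank_eq
    rw [h3]
    exact Submodule.finrank_mono h2
  have hmu : ∀ j (α : AA (0 + 1) (d j)), (algebraMap k Ω' (mu (fun _ => (1 : k)) (d j) α.1)) ≠ 0 := by
    intro j α
    rw [Ne, map_eq_zero, mu_eq _ (AA_sum α)]
    have h2 : α.1.multinomial ≠ 0 := by
      unfold Finsupp.multinomial
      exact (Nat.multinomial_pos _ _).ne'
    have h3 : (α.1.multinomial : k) ≠ 0 := by exact_mod_cast h2
    simpa using h3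
  have hind := indep hTR hBAS hCONE hINT hLS k n s 0 d u hu hreg Ω' q (by
    have h2 : ∑ j, Fintype.card (AA (0 + 1) (d j + 1)) = s := by
      simp only [card_AA1]
      simp
    rw [h2]
    omega)
  have hli : LinearIndependent Ω' (fun (j : Fin s) (l : Fin n) => aeval x' (pderiv l (u j))) := by
    rw [Fintype.linearIndependent_iff]
    intro μ hμ j₀
    have h2 := hind (fun β => μ β.1 * (algebraMap k Ω' (mu (fun _ => (1 : k)) (d β.1) β.2.1))⁻¹) (fun l => by
      rw [Fintype.sum_sigma]
      have h3 := congrFun hμ l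
      simp only [Finset.sum_apply, Pi.smul_apply, smul_eq_mul, Pi.zero_apply] at h3
      rw [← h3]
      refine Finset.sum_congr rfl fun j _ => ?_
      have hpd : (pderiv l (u j)).IsHomogeneous (d j) := (hu j).pderiv
      have h4 : ∀ α : AA (0 + 1) (d j), μ j * (algebraMap k Ω' (mu (fun _ => (1 : k)) (d j) α.1))⁻¹ *
          coeff α.1 (pol (pderiv l (u j)) (fun i l => q (i, l))) = μ j * aeval x' (pderiv l (u j)) := by
        intro α
        have h5 := pol_one hpd (fun _ : Fin (0 + 1) => (1 : k)) x' α.1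
        have h6 : (fun (i : Fin (0 + 1)) l => algebraMap k Ω' 1 * x' l) = fun i l => q (i, l) := by
          funext i l
          rw [map_one, one_mul]
        rw [h6] at h5
        rw [h5, mul_assoc, ← mul_assoc (_)⁻¹, inv_mul_cancel₀ (hmu j α), one_mul]
      rw [Finset.sum_congr rfl fun α _ => h4 α, Finset.sum_const, Finset.card_univ, card_AA1, one_smul])
    have hne : Nonempty (AA (0 + 1) (d j₀)) := by
      rw [← Fintype.card_pos_iff, card_AA1]
      exact one_pos
    obtain ⟨α⟩ := hne
    have h3 := congrFun h2 ⟨j₀, α⟩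
    exact (mul_eq_zero.1 h3).resolve_right (inv_ne_zero (hmu j₀ α))
  have h5 := finrank_ker_of_li _ hli (Tan k x') (by
    intro y hy i
    obtain ⟨D, rfl⟩ := (mem_Tan x').1 hy
    have h5 := der_aeval_sum D x' (u i)
    rw [hx', map_zero] at h5
    exact h5.symm)
  omega

end Pool.Agent.Helper10.BD
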