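import Pool.Agent.Helper10.BD.Min1
import Pool.Agent.Helper47.BD.TR
import Pool.Agent.Helper48.HY.Dim

/-! # Completion by linear forms to a system without common zeros -/

set_option autoImplicit false

namespace Pool.Agent.Helper10.BD

open MvPolynomial Pool.Agent.Helper4.QH

universe u v

theorem spec {k KK : Type u} [Field k] [IsAlgClosed k] [Field KK] [Algebra k KK] {n s m : ℕ} (M : Fin n → ℕ)
    (u : Fin s → MvPolynomial (Fin n) k) (tt : Fin m → Fin n → KK) (a : Fin n → Fin s → MvPolynomial (Fin n) KK)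
    (b : Fin n → Fin m → MvPolynomial (Fin n) KK)
    (h : ∀ i, (X i) ^ M i = ∑ j, a i j * map (algebraMap k KK) (u j) + ∑ l, b i l * ∑ x, C (tt l x) * X x) :
    ∃ (t : Fin m → Fin n → k) (a' : Fin n → Fin s → MvPolynomial (Fin n) k)
      (b' : Fin n → Fin m → MvPolynomial (Fin n) k),
      ∀ i, (X i) ^ M i = ∑ j, a' i j * u j + ∑ l, b' i l * ∑ x, C (t l x) * X x := by
  classical
  obtain ⟨S, hS⟩ : ∃ S : Finset KK, S = (Finset.univ.image fun p : Fin m × Fin n => tt p.1 p.2) ∪
      (Finset.univ.biUnion fun p : Fin n × Fin s => (a p.1 p.2).coeffs) ∪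
      (Finset.univ.biUnion fun p : Fin n × Fin m => (b p.1 p.2).coeffs) := ⟨_, rfl⟩
  let B := Algebra.adjoin k (S : Set KK)
  have hfg : Algebra.FiniteType k B := (Subalgebra.fg_iff_finiteType B).1 ⟨S, rfl⟩
  obtain ⟨ρ⟩ := Pool.Agent.Helper47.BD.exists_rho (k := k) B
  let j : B →+* KK := algebraMap B KK
  have hj : Function.Injective j := Subtype.val_injective
  have hmem : ∀ x ∈ S, x ∈ j.range := fun x hx => ⟨⟨x, Algebra.subset_adjoin hx⟩, rfl⟩
  have htl : ∀ l x, ∃ y, j y = tt l x := fun l x => hmem _ (by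
    rw [hS]
    exact Finset.mem_union_left _ (Finset.mem_union_left _
      (Finset.mem_image_of_mem (fun p : Fin m × Fin n => tt p.1 p.2) (Finset.mem_univ (l, x)))))
  have hco : ∀ (f : MvPolynomial (Fin n) KK), (f.coeffs ⊆ S) → ∀ α, coeff α f ∈ j.range := by
    intro f hf α
    by_cases h0 : coeff α f = 0
    · rw [h0]
      exact zero_mem _
    · exact hmem _ (hf (coeff_mem_coeffs α h0))
  have hal : ∀ i l, ∃ y, map j y = a i l := fun i l => Pool.Agent.Helper47.BD.exists_lift j _ (hco _ (by
    rw [hS]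
    exact (Finset.subset_biUnion_of_mem (fun p : Fin n × Fin s => (a p.1 p.2).coeffs) (Finset.mem_univ (i, l))).trans
      (Finset.subset_union_right.trans Finset.subset_union_left)))
  have hbl : ∀ i l, ∃ y, map j y = b i l := fun i l => Pool.Agent.Helper47.BD.exists_lift j _ (hco _ (by
    rw [hS]
    exact (Finset.subset_biUnion_of_mem (fun p : Fin n × Fin m => (b p.1 p.2).coeffs) (Finset.mem_univ (i, l))).trans
      Finset.subset_union_right))
  choose t₂ ht₂ using htl
  choose a₂ ha₂ using hal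
  choose b₂ hb₂ using hbl
  have heq : ∀ i, (X i : MvPolynomial (Fin n) B) ^ M i = ∑ l, a₂ i l * map (algebraMap k B) (u l) +
      ∑ l, b₂ i l * ∑ x, C (t₂ l x) * X x := by
    intro i
    apply map_injective j hj
    rw [map_pow, map_X, map_add, map_sum, map_sum, h i]
    congr 1
    · refine Finset.sum_congr rfl fun l _ => ?_
      rw [map_mul, ha₂, map_map]
      rfl
    · refine Finset.sum_congr rfl fun l _ => ?_
      rw [map_mul, hb₂, map_sum]
      congr 1
      refine Finset.sum_congr rfl fun x _ => ?_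
      rw [map_mul, map_C, map_X, ht₂]
  refine ⟨fun l x => ρ (t₂ l x), fun i l => map (ρ : B →+* k) (a₂ i l), fun i l => map (ρ : B →+* k) (b₂ i l),
    fun i => ?_⟩
  have h1 := congrArg (map (ρ : B →+* k)) (heq i)
  rw [map_pow, map_X, map_add, map_sum, map_sum] at h1
  rw [h1]
  congr 1
  · refine Finset.sum_congr rfl fun l _ => ?_
    rw [map_mul, map_map]
    congr 1
    have h2 : (ρ : B →+* k).comp (algebraMap k B) = RingHom.id k := by
      ext x
      exact ρ.commutes x
    rw [h2, map_id]
  · refine Finset.sum_congr rfl fun l _ => ?_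
    rw [map_mul, map_sum]
    congr 1
    refine Finset.sum_congr rfl fun x _ => ?_
    rw [map_mul, map_C, map_X]
    rfl

/-- Linear forms which complete the system. -/
theorem exists_lin {k : Type u} [Field k] [IsAlgClosed k] [CharZero k] {n s : ℕ} {d : Fin s → ℕ}
    (u : Fin s → MvPolynomial (Fin n) k) (hu : ∀ j, (u j).IsHomogeneous (d j + 1))
    (hdim : ∀ (Ω : Type u) [Field Ω] [Algebra k Ω] (x : Fin n → Ω), (∀ j, aeval x (u j) = 0) →
      Module.finrank Ω (Tan k x) + s ≤ n) :
    ∃ w : Fin (n - s) → MvPolynomial (Fin n) k, (∀ l, (w l).IsHomogeneous 1) ∧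
      ∀ i, X i ∈ (Ideal.span (Set.range (Sum.elim u w))).radical := by
  classical
  obtain ⟨m, hm⟩ : ∃ m, m = n - s := ⟨_, rfl⟩
  rw [← hm]
  let B := MvPolynomial (Fin m × Fin n) k
  let KK := AlgebraicClosure (FractionRing B)
  let tt : Fin m → Fin n → KK := fun j x => algebraMap (FractionRing B) KK
    (algebraMap B (FractionRing B) (X (j, x)))
  have htt : AlgebraicIndependent k (fun p : Fin m × Fin n => tt p.1 p.2) := by
    have h1 : AlgebraicIndependent k (X : Fin m × Fin n → B) :=
      MvPolynomial.algebraicIndependent_X _ _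
    have h2 := h1.map' (f := IsScalarTower.toAlgHom k B (FractionRing B))
      (IsFractionRing.injective B (FractionRing B))
    exact h2.map' (f := IsScalarTower.toAlgHom k (FractionRing B) KK)
      (algebraMap (FractionRing B) KK).injective
  have hz : ∀ y : Fin n → KK, (∀ j, aeval y (u j) = 0) → (∀ l, ∑ x, tt l x * y x = 0) → y = 0 := by
    intro y hy1 hy2
    by_contra hy0
    have h1 := Pool.Agent.Helper48.HY.lower (k := k) tt htt y hy0 hy2
    have h2 := hdim (MM KK) (fun x => tau KK * algebraMap KK (MM KK) (y x)) (fun j => by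
      rw [aeval_hom_smul (hu j)]
      have h3 := aeval_algebraMap_apply (MM KK) y (u j)
      rw [hy1, map_zero] at h3
      have h4 : aeval (fun x => algebraMap KK (MM KK) (y x)) (u j) = 0 := h3
      rw [h4, mul_zero])
    have h3 : m + 1 ≤ Module.finrank (MM KK) (Tan k (fun x => tau KK * algebraMap KK (MM KK) (y x))) := h1
    omega
  have hrad : ∀ i, ∃ (M : ℕ) (a : Fin s → MvPolynomial (Fin n) KK) (b : Fin m → MvPolynomial (Fin n) KK),
      (X i) ^ M = ∑ j, a j * map (algebraMap k KK) (u j) + ∑ l, b l * ∑ x, C (tt l x) * X x := by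
    intro i
    let G : Fin s ⊕ Fin m → MvPolynomial (Fin n) KK :=
      Sum.elim (fun j => map (algebraMap k KK) (u j)) (fun l => ∑ x, C (tt l x) * X x)
    have h1 : (X i : MvPolynomial (Fin n) KK) ∈ (Ideal.span (Set.range G)).radical := by
      rw [← vanishingIdeal_zeroLocus_eq_radical (K := KK), mem_vanishingIdeal_iff]
      intro y hy
      rw [mem_zeroLocus_iff] at hy
      have h2 : y = 0 := by
        refine hz y (fun j => ?_) (fun l => ?_)
        · have h3 := hy _ (Ideal.subset_span ⟨Sum.inl j, rfl⟩)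
          change aeval y (map (algebraMap k KK) (u j)) = 0 at h3
          rwa [aeval_map_algebraMap] at h3
        · have h3 := hy _ (Ideal.subset_span ⟨Sum.inr l, rfl⟩)
          change aeval y (∑ x, C (tt l x) * X x) = 0 at h3
          rw [map_sum] at h3
          rw [← h3]
          refine Finset.sum_congr rfl fun x _ => ?_
          rw [map_mul, aeval_C, aeval_X]
          rfl
      rw [h2, aeval_X]
      rfl
    obtain ⟨M, hM⟩ := h1
    rw [Ideal.mem_span_range_iff_exists_fun] at hM
    obtain ⟨c, hc⟩ := hM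
    refine ⟨M, fun j => c (Sum.inl j), fun l => c (Sum.inr l), ?_⟩
    rw [← hc, Fintype.sum_sum_type]
    rfl
  choose M a b hab using hrad
  obtain ⟨t, a', b', h1⟩ := spec M u tt a b hab
  refine ⟨fun l => ∑ x, C (t l x) * X x, fun l => ?_, fun i => ⟨M i, ?_⟩⟩
  · refine IsHomogeneous.sum _ _ _ fun x _ => ?_
    have := (isHomogeneous_C (Fin n) (t l x)).mul (isHomogeneous_X k x)
    rwa [zero_add] at this
  · rw [h1 i]
    refine Ideal.add_mem _ (Ideal.sum_mem _ fun j _ => ?_) (Ideal.sum_mem _ fun l _ => ?_)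
    · exact Ideal.mul_mem_left _ _ (Ideal.subset_span ⟨Sum.inl j, rfl⟩)
    · exact Ideal.mul_mem_left _ _ (Ideal.subset_span ⟨Sum.inr l, rfl⟩)

end Pool.Agent.Helper10.BD
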