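import Pool.Agent.Helper48.HY.Pol

/-!
# Statements for the project BD (systems of bounded degree)

Characteristic zero everywhere. `Tan K x` is the space of the vectors `(D x_l)_l`, `D` a `K`-derivation of `Ω`; its
dimension is the transcendence degree of `K(x)`. `StrLe e t v`: the form `v` of degree `e` has strength at most `t`.
-/

set_option autoImplicit false

namespace Pool.Agent.Helper10.BD

open MvPolynomial Pool.Agent.Helper48.HY

universe u

section

variable (K : Type u) [Field K] {Ω : Type u} [Field Ω] [Algebra K Ω] {V : Type}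

/-- evaluation of derivations at a point -/
noncomputable def evD (x : V → Ω) : Derivation K Ω Ω →ₗ[Ω] (V → Ω) where
  toFun D := fun l => D (x l)
  map_add' _ _ := rfl
  map_smul' _ _ := rfl

/-- the tangent vectors at the point `x` which are values of derivations -/
noncomputable def Tan (x : V → Ω) : Submodule Ω (V → Ω) := LinearMap.range (evD K x)

/-- the ideal of the point is homogeneous -/
def HomPt (x : V → Ω) : Prop :=
  ∀ (f : MvPolynomial V K) (d : ℕ), aeval x f = 0 → aeval x (homogeneousComponent d f) = 0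

end

/-- `v` is a sum of at most `t` products of two forms of positive degrees whose sum is `e` -/
def StrLe {K : Type u} [Field K] {n : ℕ} (e t : ℕ) (v : MvPolynomial (Fin n) K) : Prop :=
  ∃ (m : ℕ) (p q : Fin m → ℕ) (a b : Fin m → MvPolynomial (Fin n) K), m ≤ t ∧
    (∀ i, 1 ≤ p i ∧ 1 ≤ q i ∧ p i + q i = e ∧ (a i).IsHomogeneous (p i) ∧ (b i).IsHomogeneous (q i)) ∧
    v = ∑ i, a i * b i

/-- the bound for the strength of a form of degree `e + 1` whose singular locus has codimension at most `C` -/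
def bd : ℕ → ℕ → ℕ
  | 0, _ => 0
  | e + 1, C => 2 * bd e (2 * (C + 1)) + C

/-- a form of degree `e + 1` with a singular locus of codimension at most `C` has strength at most `bd e C` -/
def LS (e : ℕ) : Prop := ∀ (k : Type u) [Field k] [IsAlgClosed k] [CharZero k] (n C : ℕ) (v : MvPolynomial (Fin n) k),
  v.IsHomogeneous (e + 1) → ∀ (Ω : Type u) [Field Ω] [Algebra k Ω] (x : Fin n → Ω),
    (∀ i, aeval x (pderiv i v) = 0) → n ≤ Module.finrank Ω (Tan k x) + C → StrLe (e + 1) (bd e C) v

/-- forms of degree `e + 1` with too many common zeros have a combination of small strength -/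
def LB (e : ℕ) : Prop := ∀ (k : Type u) [Field k] [IsAlgClosed k] [CharZero k] (n m : ℕ)
  (w : Fin m → MvPolynomial (Fin n) k), (∀ i, (w i).IsHomogeneous (e + 1)) →
    ∀ (Ω : Type u) [Field Ω] [Algebra k Ω] (x : Fin n → Ω), (∀ i, aeval x (w i) = 0) →
      n + 1 ≤ Module.finrank Ω (Tan k x) + m →
        ∃ c : Fin m → k, c ≠ 0 ∧ StrLe (e + 1) (bd e (2 * m)) (∑ i, c i • w i)

/-- TR: combinations of small strength descend to an algebraically closed field. -/
def S_TR : Prop := ∀ (k : Type u) [Field k] [IsAlgClosed k] (Ω : Type u) [Field Ω] [Algebra k Ω] (n m e t : ℕ)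
  (w : Fin m → MvPolynomial (Fin n) k) (j₀ : Fin m) (c : Fin m → Ω), c j₀ ≠ 0 →
    StrLe e t (∑ i, c i • map (algebraMap k Ω) (w i)) →
      ∃ c' : Fin m → k, c' j₀ ≠ 0 ∧ (∀ i, c i = 0 → c' i = 0) ∧ StrLe e t (∑ i, c' i • w i)

/-- BAS: the field `K₁` generated by `c` (algebraically closed in `Ω`): derivations over `K₁`. -/
def S_BAS : Prop := ∀ (k : Type u) [Field k] [CharZero k] (Ω : Type u) [Field Ω] [IsAlgClosed Ω] [Algebra k Ω]
  (m : ℕ) (c : Fin m → Ω) (j₀ : Fin m), c j₀ = 1 →
    ∃ K₁ : IntermediateField k Ω, IsAlgClosed K₁ ∧ (∀ i, c i ∈ K₁) ∧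
      ∀ (V : Type) [Finite V] (x : V → Ω),
        Module.finrank Ω (Tan k x) + 1 ≤ Module.finrank Ω (Tan (↥K₁) x) + m

/-- EXT: base change of points to larger fields. -/
def S_EXT : Prop := ∀ (K : Type u) [Field K] [CharZero K] (Ω : Type u) [Field Ω] [Algebra K Ω] (Ω' : Type u) [Field Ω']
  [Algebra K Ω'] [Algebra Ω Ω'] [IsScalarTower K Ω Ω'] (V : Type) [Finite V] (x : V → Ω),
    Module.finrank Ω (Tan K x) ≤ Module.finrank Ω' (Tan K (fun l => algebraMap Ω Ω' (x l)))

/-- GEN: adjoining generic elements `t` to the base field does not change the dimension of a point over `Ω`. -/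
def S_GEN : Prop := ∀ (k : Type u) [Field k] [CharZero k] (Ω : Type u) [Field Ω] [Algebra k Ω] (Ω' : Type u) [Field Ω']
  [IsAlgClosed Ω'] [Algebra k Ω'] [Algebra Ω Ω'] [IsScalarTower k Ω Ω'] (κ : Type) (t : κ → Ω'),
    AlgebraicIndependent Ω t →
      ∃ K₁ : IntermediateField k Ω', IsAlgClosed K₁ ∧ (∀ i, t i ∈ K₁) ∧
        ∀ (V : Type) [Finite V] (x : V → Ω),
          Module.finrank Ω (Tan k x) ≤ Module.finrank Ω' (Tan (↥K₁) (fun l => algebraMap Ω Ω' (x l)))

/-- CONE: the cone over a point. -/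
def S_CONE : Prop := ∀ (K : Type u) [Field K] [CharZero K] (Ω : Type u) [Field Ω] [Algebra K Ω] (V : Type) [Finite V]
  (q : V → Ω), ∃ (Ω' : Type u) (_ : Field Ω') (_ : Algebra K Ω') (p : Option V → Ω'), HomPt K p ∧
    Module.finrank Ω (Tan K q) + 1 ≤ Module.finrank Ω' (Tan K p) ∧
    ∀ (f : MvPolynomial (Option V) K) (d : ℕ), f.IsHomogeneous d →
      aeval (fun o : Option V => o.elim (1 : Ω) q) f = 0 → aeval p f = 0

/-- INT: a cone with a generic point `p` of dimension `D` and `h` forms: a common zero of dimension at least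
`D - h`. -/
def S_INT : Prop := ∀ (K : Type u) [Field K] [CharZero K] (V κ : Type) [Fintype V] [Fintype κ] (D : ℕ)
  (Ω : Type u) [Field Ω] [Algebra K Ω] (p : V → Ω), HomPt K p → D ≤ Module.finrank Ω (Tan K p) →
    ∀ (g : κ → MvPolynomial V K) (d : κ → ℕ), (∀ j, 1 ≤ d j) → (∀ j, (g j).IsHomogeneous (d j)) →
      ∃ (Ω' : Type u) (_ : Field Ω') (_ : Algebra K Ω') (q : V → Ω'), IsAlgClosed Ω' ∧
        (∀ f : MvPolynomial V K, aeval p f = 0 → aeval q f = 0) ∧ (∀ j, aeval q (g j) = 0) ∧
        D ≤ Module.finrank Ω' (Tan K q) + Fintype.card κ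

/-- the number of the conditions for a free linear space of dimension `a` -/
def num (a s : ℕ) (d : Fin s → ℕ) : ℕ :=
  ∑ j, (Fintype.card (AA a (d j + 1)) + Fintype.card (AA a (d j)))

/-- FREE: forms `u j` of degrees `d j + 1` such that the combinations in each degree have large strength: a free
linear space spanned by `P 0, …, P a`. -/
def S_FREE : Prop := ∀ (k : Type u) [Field k] [IsAlgClosed k] [CharZero k] (n s a : ℕ) (d : Fin s → ℕ)
  (u : Fin s → MvPolynomial (Fin n) k), (∀ j, (u j).IsHomogeneous (d j + 1)) →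
    (∀ (e : ℕ) (c : Fin s → k), c ≠ 0 → (∀ j, c j ≠ 0 → d j = e) →
      ¬ StrLe (e + 1) (bd e (num (a + 1) s d)) (∑ j, c j • u j)) →
    ∃ (P : Fin (a + 1) → Fin n → k) (W : (Σ j : Fin s, AA (a + 1) (d j)) → Fin n → k),
      (∀ j, pol (u j) P = 0) ∧
      ∀ β β' : (Σ j : Fin s, AA (a + 1) (d j)),
        ∑ l, coeff β.2.1 (pol (pderiv l (u β.1)) P) * W β' l = if β = β' then 1 else 0

/-- the combinations of the `u j` in each degree have strength more than `t` -/
def Reg {K : Type u} [Field K] {n s : ℕ} (t : ℕ) (d : Fin s → ℕ) (u : Fin s → MvPolynomial (Fin n) K) : Prop :=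
  ∀ (e : ℕ) (c : Fin s → K), c ≠ 0 → (∀ j, c j ≠ 0 → d j = e) → ¬ StrLe (e + 1) t (∑ j, c j • u j)

/-- REG: regularisation. The threshold `τ` may depend on the numbers `κ e` of the forms of degree `e + 1`. -/
def S_REG : Prop := ∀ (r D : ℕ) (τ : (Fin D → ℕ) → ℕ), ∃ S : ℕ, ∀ (K : Type u) [Field K] (n : ℕ)
  (f : Fin r → MvPolynomial (Fin n) K), (∀ i, (f i).totalDegree ≤ D) →
    ∃ (s : ℕ) (d : Fin s → ℕ) (u : Fin s → MvPolynomial (Fin n) K), s ≤ S ∧ (∀ j, d j < D) ∧
      (∀ j, (u j).IsHomogeneous (d j + 1)) ∧ (∀ i, f i ∈ Algebra.adjoin K (Set.range u)) ∧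
      Reg (τ fun e => (Finset.univ.filter fun j => d j = e).card) d u

end Pool.Agent.Helper10.BD
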