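import Pool.Agent.Helper10.BD.Stm

/-! # Elementary properties of the strength -/

set_option autoImplicit false

namespace Pool.Agent.Helper10.BD

open MvPolynomial

universe u v

section
variable {K : Type u} [Field K] {n e t : ℕ}

theorem StrLe.of_fintype {ι : Type v} [Fintype ι] (hι : Fintype.card ι ≤ t) (p q : ι → ℕ)
    (a b : ι → MvPolynomial (Fin n) K)
    (h : ∀ i, 1 ≤ p i ∧ 1 ≤ q i ∧ p i + q i = e ∧ (a i).IsHomogeneous (p i) ∧ (b i).IsHomogeneous (q i)) :
    StrLe e t (∑ i, a i * b i) := by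
  let ψ := (Fintype.equivFin ι).symm
  refine ⟨Fintype.card ι, p ∘ ψ, q ∘ ψ, a ∘ ψ, b ∘ ψ, hι, fun i => h _, ?_⟩
  exact (Equiv.sum_comp ψ (fun i => a i * b i)).symm

theorem StrLe.mono {t' : ℕ} {v : MvPolynomial (Fin n) K} (h : StrLe e t v) (ht : t ≤ t') : StrLe e t' v := by
  obtain ⟨m, p, q, a, b, hm, h1, h2⟩ := h
  exact ⟨m, p, q, a, b, hm.trans ht, h1, h2⟩

theorem StrLe.smul {v : MvPolynomial (Fin n) K} (h : StrLe e t v) (c : K) : StrLe e t (c • v) := by
  obtain ⟨m, p, q, a, b, hm, h1, h2⟩ := h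
  refine ⟨m, p, q, fun i => c • a i, b, hm, fun i => ?_, ?_⟩
  · obtain ⟨h3, h4, h5, h6, h7⟩ := h1 i
    refine ⟨h3, h4, h5, ?_, h7⟩
    have := (isHomogeneous_C (Fin n) c).mul h6
    rw [zero_add, ← smul_eq_C_mul] at this
    exact this
  · rw [h2, Finset.smul_sum]
    exact Finset.sum_congr rfl fun i _ => (smul_mul_assoc _ _ _).symm

theorem StrLe.zero : StrLe e t (0 : MvPolynomial (Fin n) K) :=
  ⟨0, Fin.elim0, Fin.elim0, Fin.elim0, Fin.elim0, Nat.zero_le _, fun i => i.elim0, by simp⟩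

theorem StrLe.map {L : Type v} [Field L] (φ : K →+* L) {v : MvPolynomial (Fin n) K} (h : StrLe e t v) :
    ∃ (m : ℕ) (p q : Fin m → ℕ) (a b : Fin m → MvPolynomial (Fin n) L), m ≤ t ∧
    (∀ i, 1 ≤ p i ∧ 1 ≤ q i ∧ p i + q i = e ∧ (a i).IsHomogeneous (p i) ∧ (b i).IsHomogeneous (q i)) ∧
    MvPolynomial.map φ v = ∑ i, a i * b i := by
  obtain ⟨m, p, q, a, b, hm, h1, h2⟩ := h
  refine ⟨m, p, q, fun i => MvPolynomial.map φ (a i), fun i => MvPolynomial.map φ (b i), hm, fun i => ?_, ?_⟩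
  · obtain ⟨h3, h4, h5, h6, h7⟩ := h1 i
    exact ⟨h3, h4, h5, h6.map φ, h7.map φ⟩
  · rw [h2, map_sum]
    exact Finset.sum_congr rfl fun i _ => map_mul _ _ _

theorem smul_hom {v : MvPolynomial (Fin n) K} (h : v.IsHomogeneous e) (c : K) : (c • v).IsHomogeneous e := by
  rw [smul_eq_C_mul]
  have := (isHomogeneous_C (Fin n) c).mul h
  rwa [zero_add] at this

end

/-! ## Derivations on the coefficients -/

section
variable {k : Type u} [CommRing k] {L : Type v} [CommRing L] [Algebra k L] {σ : Type}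

theorem coeff_dc0 (D : Derivation k L L) (f : MvPolynomial σ L) (m : σ →₀ ℕ) :
    coeff m (∑ a ∈ f.support, monomial a (D (coeff a f))) = D (coeff m f) := by
  classical
  rw [coeff_sum]
  simp only [coeff_monomial]
  rw [Finset.sum_ite_eq' f.support m]
  split_ifs with h
  · rfl
  · rw [notMem_support_iff.1 h, map_zero]

/-- the derivation acts on the coefficients -/
noncomputable def dc (D : Derivation k L L) : MvPolynomial σ L →+ MvPolynomial σ L :=
  AddMonoidHom.mk' (fun f => ∑ a ∈ f.support, monomial a (D (coeff a f))) (fun f g => by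
    ext m
    rw [coeff_add, coeff_dc0, coeff_dc0, coeff_dc0, coeff_add, map_add])

theorem coeff_dc (D : Derivation k L L) (f : MvPolynomial σ L) (m : σ →₀ ℕ) : coeff m (dc D f) = D (coeff m f) :=
  coeff_dc0 D f m

theorem dc_mul (D : Derivation k L L) (f g : MvPolynomial σ L) : dc D (f * g) = dc D f * g + f * dc D g := by
  classical
  ext m
  rw [coeff_dc, coeff_mul, map_sum, coeff_add, coeff_mul, coeff_mul, ← Finset.sum_add_distrib]
  refine Finset.sum_congr rfl fun x _ => ?_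
  rw [coeff_dc, coeff_dc, D.leibniz, smul_eq_mul, smul_eq_mul]
  ring

theorem dc_C (D : Derivation k L L) (a : L) : dc D (C a : MvPolynomial σ L) = C (D a) := by
  classical
  ext m
  rw [coeff_dc, coeff_C, coeff_C]
  split_ifs
  · rfl
  · rw [map_zero]

theorem dc_map (D : Derivation k L L) (f : MvPolynomial σ k) : dc D (map (algebraMap k L) f) = 0 := by
  ext m
  rw [coeff_dc, coeff_map, D.map_algebraMap, coeff_zero]

theorem dc_hom (D : Derivation k L L) {f : MvPolynomial σ L} {d : ℕ} (hf : f.IsHomogeneous d) :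
    (dc D f).IsHomogeneous d := by
  intro m hm
  rw [coeff_dc] at hm
  apply hf
  intro h
  rw [h, map_zero] at hm
  exact hm rfl

theorem dc_sum (D : Derivation k L L) {ι : Type*} (s : Finset ι) (f : ι → MvPolynomial σ L) :
    dc D (∑ i ∈ s, f i) = ∑ i ∈ s, dc D (f i) := map_sum _ _ _

end

end Pool.Agent.Helper10.BD
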